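import Pool.Agent.helper1.VD.SpecA2

/-!
# VD block A2, row AWEQ: the beam equation
-/

set_option autoImplicit false

open scoped ContDiff Topology InnerProductSpace ComplexConjugate ENNReal
open MeasureTheory Filter Set

namespace Pool.Agent.VD

open Pool.Agent.VQ (CH)

noncomputable section

variable {d : ℕ}

/-- the gradient of the phase -/
def AWEQ_g (q : P d) (M : MC d) (v : V d) (j : Fin d) : ℂ := Wcx q.2 j + M.mulVec (Wcx v) j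

lemma AWEQ_WX (ch : ℝ → ℝ) (ζ1 R : ℝ) (h : CH ch) : ContDiff ℝ ∞ (WX ch ζ1 R : V d → ℂ) := by
  unfold WX
  exact Complex.ofRealCLM.contDiff.comp (h.smooth.comp (contDiff_const.mul (contDiff_norm_sq ℝ)))

lemma AWEQ_sym (M : MC d) (hM : M.transpose = M) (v z : V d) :
    ∑ i, ∑ j, M i j * ((v i * z j + z i * v j : ℝ) : ℂ) = 2 * ∑ j, M.mulVec (Wcx v) j * ((z j : ℝ) : ℂ) := by
  have hs : ∀ i j, M i j = M j i := fun i j => by
    have := congrFun (congrFun hM i) j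
    rw [Matrix.transpose_apply] at this
    exact this.symm
  have e1 : ∑ i, ∑ j, M i j * ((v i * z j : ℝ) : ℂ) = ∑ j, M.mulVec (Wcx v) j * ((z j : ℝ) : ℂ) := by
    rw [Finset.sum_comm]
    refine Finset.sum_congr rfl fun j _ => ?_
    rw [Matrix.mulVec, dotProduct, Finset.sum_mul]
    refine Finset.sum_congr rfl fun i _ => ?_
    rw [hs i j, Wcx]
    push_cast
    ring
  have e2 : ∑ i, ∑ j, M i j * ((z i * v j : ℝ) : ℂ) = ∑ j, M.mulVec (Wcx v) j * ((z j : ℝ) : ℂ) := by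
    refine Finset.sum_congr rfl fun j _ => ?_
    rw [Matrix.mulVec, dotProduct, Finset.sum_mul]
    refine Finset.sum_congr rfl fun i _ => ?_
    rw [Wcx]
    push_cast
    ring
  have e3 : ∑ i, ∑ j, M i j * ((v i * z j + z i * v j : ℝ) : ℂ) = ∑ i, ∑ j, M i j * ((v i * z j : ℝ) : ℂ) + ∑ i, ∑ j, M i j * ((z i * v j : ℝ) : ℂ) := by
    rw [← Finset.sum_add_distrib]
    refine Finset.sum_congr rfl fun i _ => ?_
    rw [← Finset.sum_add_distrib]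
    refine Finset.sum_congr rfl fun j _ => ?_
    push_cast
    ring
  rw [e3, e1, e2]
  ring

lemma AWEQ_qf (M : MC d) (hM : M.transpose = M) (v : V d) :
    ∃ L : V d →L[ℝ] ℂ, HasFDerivAt (qf M) L v ∧ ∀ z, L z = 2 * ∑ j, M.mulVec (Wcx v) j * ((z j : ℝ) : ℂ) := by
  have hp : ∀ i, HasFDerivAt (fun w : V d => w i) (EuclideanSpace.proj i : V d →L[ℝ] ℝ) v := fun i =>
    (EuclideanSpace.proj i : V d →L[ℝ] ℝ).hasFDerivAt
  have h1 : ∀ i j, HasFDerivAt (fun w : V d => M i j * ((w i * w j : ℝ) : ℂ)) (M i j • Complex.ofRealCLM.comp (v i • (EuclideanSpace.proj j : V d →L[ℝ] ℝ) + v j • (EuclideanSpace.proj i : V d →L[ℝ] ℝ))) v := fun i j => by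
    have := (Complex.ofRealCLM.hasFDerivAt.comp v ((hp i).mul (hp j))).const_mul (M i j)
    exact this
  refine ⟨_, HasFDerivAt.fun_sum (fun i _ => HasFDerivAt.fun_sum (fun j _ => h1 i j)), fun z => ?_⟩
  rw [← AWEQ_sym M hM v z]
  simp only [sum_apply]
  refine Finset.sum_congr rfl fun i _ => ?_
  refine Finset.sum_congr rfl fun j _ => ?_
  change M i j * (((v i * z j + v j * z i : ℝ)) : ℂ) = _
  push_cast
  ring

lemma AWEQ_qft (Ms : ℝ → MC d) (vs : ℝ → V d) (M' : MC d) (v' : V d) (t : ℝ) (hM : (Ms t).transpose = Ms t)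
    (h1 : ∀ i j, HasDerivAt (fun s => Ms s i j) (M' i j) t) (h2 : HasDerivAt vs v' t) :
    HasDerivAt (fun s => qf (Ms s) (vs s)) (qf M' (vs t) + 2 * ∑ j, (Ms t).mulVec (Wcx (vs t)) j * ((v' j : ℝ) : ℂ)) t := by
  have hp : ∀ i, HasDerivAt (fun s => vs s i) (v' i) t := fun i =>
    (EuclideanSpace.proj i : V d →L[ℝ] ℝ).hasFDerivAt.comp_hasDerivAt t h2
  have h3 : ∀ i j, HasDerivAt (fun s => Ms s i j * ((vs s i * vs s j : ℝ) : ℂ)) (M' i j * ((vs t i * vs t j : ℝ) : ℂ) + Ms t i j * ((v' i * vs t j + vs t i * v' j : ℝ) : ℂ)) t := fun i j => by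
    exact (h1 i j).mul (((hp i).mul (hp j)).ofReal_comp)
  have h4 := HasDerivAt.fun_sum (u := Finset.univ) (fun i _ => HasDerivAt.fun_sum (u := Finset.univ) (fun j _ => h3 i j))
  refine h4.congr_deriv ?_
  rw [← AWEQ_sym (Ms t) hM (vs t) v', qf, ← Finset.sum_add_distrib]
  refine Finset.sum_congr rfl fun i _ => ?_
  rw [← Finset.sum_add_distrib]
  refine Finset.sum_congr rfl fun j _ => ?_
  push_cast
  ring

/-- linear maps in the basis -/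
lemma AWEQ_lin (L : V d →L[ℝ] ℂ) (z : V d) : L z = ∑ a, ((z a : ℝ) : ℂ) * L (EuclideanSpace.single a 1) := by
  have hz : z = ∑ a, z a • (EuclideanSpace.single a (1 : ℝ) : V d) := by
    ext b
    simp [Finset.sum_apply, Pi.single_apply]
  conv_lhs => rw [hz]
  rw [map_sum]
  refine Finset.sum_congr rfl fun a _ => ?_
  rw [map_smul]
  rfl

lemma AWEQ_inner (ξ z : V d) : ((⟪ξ, z⟫_ℝ : ℝ) : ℂ) = ∑ j, Wcx ξ j * ((z j : ℝ) : ℂ) := by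
  rw [PiLp.inner_apply]
  push_cast
  refine Finset.sum_congr rfl fun j _ => ?_
  simp only [Wcx, RCLike.inner_apply, conj_trivial]
  push_cast
  ring

/-- the phase in the coordinates centred at `x` -/
def AWEQ_th (ξ : V d) (M : MC d) (v : V d) : ℂ := ((⟪ξ, v⟫_ℝ : ℝ) : ℂ) + qf M v / 2

lemma AWEQ_thd (q : P d) (M : MC d) (hM : M.transpose = M) (v : V d) :
    ∃ L : V d →L[ℝ] ℂ, HasFDerivAt (AWEQ_th q.2 M) L v ∧ ∀ z, L z = ∑ j, AWEQ_g q M v j * ((z j : ℝ) : ℂ) := by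
  obtain ⟨L, hL, hLz⟩ := AWEQ_qf M hM v
  have h1 : HasFDerivAt (fun v : V d => ((⟪q.2, v⟫_ℝ : ℝ) : ℂ)) (Complex.ofRealCLM.comp (innerSL ℝ q.2)) v :=
    Complex.ofRealCLM.hasFDerivAt.comp v (innerSL ℝ q.2).hasFDerivAt
  refine ⟨Complex.ofRealCLM.comp (innerSL ℝ q.2) + (2 : ℂ)⁻¹ • L, ?_, fun z => ?_⟩
  · have h2 := h1.add (hL.const_mul (2 : ℂ)⁻¹)
    refine h2.congr_of_eventuallyEq (Eventually.of_forall fun w => ?_)
    simp only [AWEQ_th, Pi.add_apply]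
    ring
  · simp only [add_apply, ContinuousLinearMap.comp_apply, smul_apply, innerSL_apply_apply, Complex.ofRealCLM_apply, smul_eq_mul]
    rw [hLz z, AWEQ_inner, ← mul_assoc, inv_mul_cancel₀ (two_ne_zero), one_mul, ← Finset.sum_add_distrib]
    refine Finset.sum_congr rfl fun j _ => ?_
    rw [AWEQ_g]
    ring


/-- the phase factor -/
def AWEQ_E (R : ℝ) (ξ : V d) (M : MC d) (v : V d) : ℂ := Complex.exp (Complex.I * (R : ℂ) * AWEQ_th ξ M v)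

lemma AWEQ_Ed (R : ℝ) (q : P d) (M : MC d) (hM : M.transpose = M) (v : V d) :
    ∃ L : V d →L[ℝ] ℂ, HasFDerivAt (AWEQ_E R q.2 M) L v ∧ ∀ z, L z = AWEQ_E R q.2 M v * (Complex.I * (R : ℂ) * ∑ j, AWEQ_g q M v j * ((z j : ℝ) : ℂ)) := by
  obtain ⟨L, hL, hLz⟩ := AWEQ_thd q M hM v
  refine ⟨AWEQ_E R q.2 M v • ((Complex.I * (R : ℂ)) • L), ?_, fun z => ?_⟩
  · exact (hL.const_mul (Complex.I * (R : ℂ))).cexp
  · change AWEQ_E R q.2 M v * ((Complex.I * (R : ℂ)) * L z) = _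
    rw [hLz z]

/-- `h(x+v) e_i` paired with the gradient -/
def AWEQ_S (G : V d → V d →L[ℝ] V d) (q : P d) (M : MC d) (i : Fin d) (v : V d) : ℂ :=
  ∑ j, AWEQ_g q M v j * (((IG G (q.1 + v) (EuclideanSpace.single i 1)) j : ℝ) : ℂ)

/-- derivative of the cut-off in the direction `h(x+v) e_i` -/
def AWEQ_K (G : V d → V d →L[ℝ] V d) (ch : ℝ → ℝ) (ζ1 R : ℝ) (q : P d) (i : Fin d) (v : V d) : ℂ :=
  fderiv ℝ (WX ch ζ1 R) v (IG G (q.1 + v) (EuclideanSpace.single i 1))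

lemma AWEQ_gd (q : P d) (M : MC d) (v : V d) (j : Fin d) :
    ∃ L : V d →L[ℝ] ℂ, HasFDerivAt (fun v => AWEQ_g q M v j) L v ∧ ∀ i, L (EuclideanSpace.single i 1) = M j i := by
  have hp : ∀ i, HasFDerivAt (fun w : V d => w i) (EuclideanSpace.proj i : V d →L[ℝ] ℝ) v := fun i =>
    (EuclideanSpace.proj i : V d →L[ℝ] ℝ).hasFDerivAt
  have h1 : HasFDerivAt (fun v : V d => M.mulVec (Wcx v) j) (∑ a, M j a • Complex.ofRealCLM.comp (EuclideanSpace.proj a : V d →L[ℝ] ℝ)) v := by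
    have h2 : HasFDerivAt (fun v : V d => ∑ a, M j a * ((v a : ℝ) : ℂ)) (∑ a, M j a • Complex.ofRealCLM.comp (EuclideanSpace.proj a : V d →L[ℝ] ℝ)) v :=
      HasFDerivAt.fun_sum (fun a _ => (Complex.ofRealCLM.hasFDerivAt.comp v (hp a)).const_mul (M j a))
    exact h2
  refine ⟨_, h1.const_add (Wcx q.2 j), fun i => ?_⟩
  simp only [sum_apply]
  have h3 : ∀ a, (M j a • Complex.ofRealCLM.comp (EuclideanSpace.proj a : V d →L[ℝ] ℝ)) (EuclideanSpace.single i (1 : ℝ)) = if a = i then M j i else 0 := fun a => by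
    change M j a * (((EuclideanSpace.single i (1 : ℝ) : V d) a : ℝ) : ℂ) = _
    by_cases h : a = i
    · subst h; simp
    · simp [h]
  simp only [h3]
  simp

lemma AWEQ_hd (G : V d → V d →L[ℝ] V d) (hI : ContDiff ℝ ∞ (IG G)) (x v e : V d) :
    HasFDerivAt (fun v : V d => IG G (x + v) e) ((ContinuousLinearMap.apply ℝ (V d) e).comp (fderiv ℝ (IG G) (x + v))) v := by
  have h1 : HasFDerivAt (fun v : V d => x + v) (ContinuousLinearMap.id ℝ (V d)) v := (hasFDerivAt_id v).const_add x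
  have h2 : HasFDerivAt (IG G) (fderiv ℝ (IG G) (x + v)) (x + v) := ((hI.differentiable (by simp)) (x + v)).hasFDerivAt
  have h3 := h2.comp v h1
  have h4 := (ContinuousLinearMap.apply ℝ (V d) e).hasFDerivAt.comp v h3
  exact h4

lemma AWEQ_Sd (G : V d → V d →L[ℝ] V d) (hI : ContDiff ℝ ∞ (IG G)) (q : P d) (M : MC d) (v : V d) (i : Fin d) :
    ∃ L : V d →L[ℝ] ℂ, HasFDerivAt (AWEQ_S G q M i) L v ∧
      L (EuclideanSpace.single i 1) = ∑ j, (M j i * (((IG G (q.1 + v) (EuclideanSpace.single i 1)) j : ℝ) : ℂ) + AWEQ_g q M v j * (((fderiv ℝ (IG G) (q.1 + v) (EuclideanSpace.single i 1) (EuclideanSpace.single i 1)) j : ℝ) : ℂ)) := by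
  choose Lg hLg hLg1 using fun j => AWEQ_gd q M v j
  have h1 := AWEQ_hd G hI q.1 v (EuclideanSpace.single i 1)
  have h2 : ∀ j, HasFDerivAt (fun v : V d => (((IG G (q.1 + v) (EuclideanSpace.single i 1)) j : ℝ) : ℂ)) (Complex.ofRealCLM.comp ((EuclideanSpace.proj j : V d →L[ℝ] ℝ).comp ((ContinuousLinearMap.apply ℝ (V d) (EuclideanSpace.single i 1)).comp (fderiv ℝ (IG G) (q.1 + v))))) v := fun j =>
    Complex.ofRealCLM.hasFDerivAt.comp v ((EuclideanSpace.proj j : V d →L[ℝ] ℝ).hasFDerivAt.comp v h1)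
  refine ⟨_, HasFDerivAt.fun_sum (fun j _ => (hLg j).mul (h2 j)), ?_⟩
  simp only [sum_apply]
  refine Finset.sum_congr rfl fun j _ => ?_
  change AWEQ_g q M v j * (((fderiv ℝ (IG G) (q.1 + v) (EuclideanSpace.single i 1) (EuclideanSpace.single i 1)) j : ℝ) : ℂ) + (((IG G (q.1 + v) (EuclideanSpace.single i 1)) j : ℝ) : ℂ) * Lg j (EuclideanSpace.single i 1) = _
  rw [hLg1 j i]
  ring

lemma AWEQ_Kd (G : V d → V d →L[ℝ] V d) (hI : ContDiff ℝ ∞ (IG G)) (ch : ℝ → ℝ) (ζ1 R : ℝ) (h : CH ch) (q : P d) (i : Fin d) :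
    Differentiable ℝ (AWEQ_K G ch ζ1 R q i) := by
  have h1 : ContDiff ℝ ∞ (fderiv ℝ (WX ch ζ1 R : V d → ℂ)) := (AWEQ_WX ch ζ1 R h).fderiv_right (by simp)
  have h2 : ContDiff ℝ ∞ (fun v : V d => IG G (q.1 + v) (EuclideanSpace.single i 1)) := (hI.comp (contDiff_const.add contDiff_id)).clm_apply contDiff_const
  exact (h1.clm_apply h2).differentiable (by simp)

/-- the spatial part of the beam in the coordinates centred at `x` -/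
def AWEQ_U (ch : ℝ → ℝ) (ζ1 R : ℝ) (ξ : V d) (M : MC d) (v : V d) : ℂ := AWEQ_E R ξ M v * WX ch ζ1 R v

lemma AWEQ_Ud (ch : ℝ → ℝ) (ζ1 R : ℝ) (h : CH ch) (q : P d) (M : MC d) (hM : M.transpose = M) (v z : V d) :
    DifferentiableAt ℝ (AWEQ_U ch ζ1 R q.2 M) v ∧ fderiv ℝ (AWEQ_U ch ζ1 R q.2 M) v z =
      AWEQ_E R q.2 M v * (Complex.I * (R : ℂ) * (∑ j, AWEQ_g q M v j * ((z j : ℝ) : ℂ)) * WX ch ζ1 R v + fderiv ℝ (WX ch ζ1 R) v z) := by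
  obtain ⟨L, hL, hLz⟩ := AWEQ_Ed R q M hM v
  have h2 : HasFDerivAt (WX ch ζ1 R : V d → ℂ) (fderiv ℝ (WX ch ζ1 R) v) v := (((AWEQ_WX ch ζ1 R h).differentiable (by simp)) v).hasFDerivAt
  have h3 : HasFDerivAt (AWEQ_U ch ζ1 R q.2 M) (AWEQ_E R q.2 M v • fderiv ℝ (WX ch ζ1 R) v + WX ch ζ1 R v • L) v := hL.mul h2
  refine ⟨h3.differentiableAt, ?_⟩
  rw [h3.fderiv]
  change AWEQ_E R q.2 M v * fderiv ℝ (WX ch ζ1 R) v z + WX ch ζ1 R v * L z = _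
  rw [hLz z]
  ring

lemma AWEQ_qfsm (M : MC d) : ContDiff ℝ ∞ (qf M) := by
  unfold qf
  refine ContDiff.sum fun i _ => ContDiff.sum fun j _ => ?_
  refine contDiff_const.mul (Complex.ofRealCLM.contDiff.comp ?_)
  exact (EuclideanSpace.proj i : V d →L[ℝ] ℝ).contDiff.mul (EuclideanSpace.proj j : V d →L[ℝ] ℝ).contDiff

lemma AWEQ_Usm (ch : ℝ → ℝ) (ζ1 R : ℝ) (h : CH ch) (ξ : V d) (M : MC d) : ContDiff ℝ ∞ (AWEQ_U ch ζ1 R ξ M) := by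
  have h1 : ContDiff ℝ ∞ (AWEQ_th ξ M) := by
    unfold AWEQ_th
    refine ContDiff.add (Complex.ofRealCLM.contDiff.comp (innerSL ℝ ξ).contDiff) ((AWEQ_qfsm M).div_const 2)
  have h2 : ContDiff ℝ ∞ (AWEQ_E R ξ M) := by
    unfold AWEQ_E
    exact (contDiff_const.mul h1).cexp
  exact h2.mul (AWEQ_WX ch ζ1 R h)

/-- one term of the divergence -/
lemma AWEQ_T (G : V d → V d →L[ℝ] V d) (hI : ContDiff ℝ ∞ (IG G)) (ch : ℝ → ℝ) (ζ1 R : ℝ) (h : CH ch) (q : P d) (M : MC d) (hM : M.transpose = M) (v : V d) (i : Fin d) :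
    fderiv ℝ (fun y => fderiv ℝ (AWEQ_U ch ζ1 R q.2 M) y (IG G (q.1 + y) (EuclideanSpace.single i 1))) v (EuclideanSpace.single i 1) =
      AWEQ_E R q.2 M v * (Complex.I * (R : ℂ) * AWEQ_g q M v i * (Complex.I * (R : ℂ) * AWEQ_S G q M i v * WX ch ζ1 R v + AWEQ_K G ch ζ1 R q i v) +
        (Complex.I * (R : ℂ) * (∑ j, (M j i * (((IG G (q.1 + v) (EuclideanSpace.single i 1)) j : ℝ) : ℂ) + AWEQ_g q M v j * (((fderiv ℝ (IG G) (q.1 + v) (EuclideanSpace.single i 1) (EuclideanSpace.single i 1)) j : ℝ) : ℂ))) * WX ch ζ1 R v +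
          Complex.I * (R : ℂ) * AWEQ_S G q M i v * fderiv ℝ (WX ch ζ1 R) v (EuclideanSpace.single i 1) + fderiv ℝ (AWEQ_K G ch ζ1 R q i) v (EuclideanSpace.single i 1))) := by
  have e1 : (fun y => fderiv ℝ (AWEQ_U ch ζ1 R q.2 M) y (IG G (q.1 + y) (EuclideanSpace.single i 1))) =
      fun y => AWEQ_E R q.2 M y * (Complex.I * (R : ℂ) * AWEQ_S G q M i y * WX ch ζ1 R y + AWEQ_K G ch ζ1 R q i y) := by
    funext y
    rw [(AWEQ_Ud ch ζ1 R h q M hM y _).2]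
    rfl
  rw [e1]
  obtain ⟨LE, hLE, hLEz⟩ := AWEQ_Ed R q M hM v
  obtain ⟨LS, hLS, hLSz⟩ := AWEQ_Sd G hI q M v i
  have hX : HasFDerivAt (WX ch ζ1 R : V d → ℂ) (fderiv ℝ (WX ch ζ1 R) v) v := (((AWEQ_WX ch ζ1 R h).differentiable (by simp)) v).hasFDerivAt
  have hK : HasFDerivAt (AWEQ_K G ch ζ1 R q i) (fderiv ℝ (AWEQ_K G ch ζ1 R q i) v) v := ((AWEQ_Kd G hI ch ζ1 R h q i) v).hasFDerivAt
  have h3 := hLE.mul ((((hLS.const_mul (Complex.I * (R : ℂ))).mul hX)).add hK)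
  have h4 : HasFDerivAt (fun y => AWEQ_E R q.2 M y * (Complex.I * (R : ℂ) * AWEQ_S G q M i y * WX ch ζ1 R y + AWEQ_K G ch ζ1 R q i y)) _ v := h3
  rw [h4.fderiv]
  change AWEQ_E R q.2 M v * (Complex.I * (R : ℂ) * AWEQ_S G q M i v * fderiv ℝ (WX ch ζ1 R) v (EuclideanSpace.single i 1) + WX ch ζ1 R v * (Complex.I * (R : ℂ) * LS (EuclideanSpace.single i 1)) + fderiv ℝ (AWEQ_K G ch ζ1 R q i) v (EuclideanSpace.single i 1)) +
    (Complex.I * (R : ℂ) * AWEQ_S G q M i v * WX ch ζ1 R v + AWEQ_K G ch ζ1 R q i v) * LE (EuclideanSpace.single i 1) = _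
  have e2 : ∑ j, AWEQ_g q M v j * (((EuclideanSpace.single i (1 : ℝ) : V d) j : ℝ) : ℂ) = AWEQ_g q M v i := by
    rw [Finset.sum_eq_single i]
    · simp
    · intro j _ hj; simp [hj]
    · intro hi; exact absurd (Finset.mem_univ i) hi
  rw [hLSz, hLEz, e2]
  ring


lemma AWEQ_comp (A : V d →L[ℝ] V d) (hA : ∀ u v : V d, ⟪A u, v⟫_ℝ = ⟪u, A v⟫_ℝ) (i j : Fin d) :
    (A (EuclideanSpace.single i 1)) j = (A (EuclideanSpace.single j 1)) i := by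
  have h1 := hA (EuclideanSpace.single i 1) (EuclideanSpace.single j 1)
  rw [EuclideanSpace.inner_single_right, EuclideanSpace.inner_single_left] at h1
  simpa using h1

lemma AWEQ_dsym (G : V d → V d →L[ℝ] V d) (hI : ContDiff ℝ ∞ (IG G)) (hs : ∀ x u v : V d, ⟪IG G x u, v⟫_ℝ = ⟪u, IG G x v⟫_ℝ) (x v w : V d) (i j : Fin d) :
    (fderiv ℝ (IG G) (x + v) w (EuclideanSpace.single i 1)) j = (fderiv ℝ (IG G) (x + v) w (EuclideanSpace.single j 1)) i := by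
  have h1 := (EuclideanSpace.proj j : V d →L[ℝ] ℝ).hasFDerivAt.comp v (AWEQ_hd G hI x v (EuclideanSpace.single i 1))
  have h2 := (EuclideanSpace.proj i : V d →L[ℝ] ℝ).hasFDerivAt.comp v (AWEQ_hd G hI x v (EuclideanSpace.single j 1))
  have e : ((EuclideanSpace.proj j : V d →L[ℝ] ℝ) ∘ fun v : V d => IG G (x + v) (EuclideanSpace.single i 1)) = ((EuclideanSpace.proj i : V d →L[ℝ] ℝ) ∘ fun v : V d => IG G (x + v) (EuclideanSpace.single j 1)) := by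
    funext y
    exact AWEQ_comp (IG G (x + y)) (hs (x + y)) i j
  rw [e] at h1
  have h3 := h1.unique h2
  have h4 := DFunLike.congr_fun h3 w
  exact h4

lemma AWEQ_A1 (G : V d → V d →L[ℝ] V d) (ch : ℝ → ℝ) (ζ1 R : ℝ) (q : P d) (M : MC d) (v : V d) :
    ∑ i, AWEQ_g q M v i * AWEQ_K G ch ζ1 R q i v = WhE (IG G (q.1 + v)) (fun i => fderiv ℝ (WX ch ζ1 R) v (EuclideanSpace.single i 1)) (Wcx q.2 + M.mulVec (Wcx v)) := by
  unfold WhE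
  rw [Finset.sum_comm]
  refine Finset.sum_congr rfl fun i _ => ?_
  rw [AWEQ_K, AWEQ_lin, Finset.mul_sum]
  refine Finset.sum_congr rfl fun j _ => ?_
  rw [Pi.add_apply, AWEQ_g]
  ring

lemma AWEQ_A2 (G : V d → V d →L[ℝ] V d) (hs : ∀ x u v : V d, ⟪IG G x u, v⟫_ℝ = ⟪u, IG G x v⟫_ℝ) (q : P d) (M : MC d) (v : V d) (a : Fin d → ℂ) :
    ∑ i, AWEQ_S G q M i v * a i = WhE (IG G (q.1 + v)) a (Wcx q.2 + M.mulVec (Wcx v)) := by
  unfold WhE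
  refine Finset.sum_congr rfl fun i _ => ?_
  rw [AWEQ_S, Finset.sum_mul]
  refine Finset.sum_congr rfl fun j _ => ?_
  rw [AWEQ_comp (IG G (q.1 + v)) (hs (q.1 + v)) i j, Pi.add_apply, AWEQ_g]
  ring

lemma AWEQ_A3 (G : V d → V d →L[ℝ] V d) (hs : ∀ x u v : V d, ⟪IG G x u, v⟫_ℝ = ⟪u, IG G x v⟫_ℝ) (q : P d) (M : MC d) (v : V d) :
    ∑ i, AWEQ_g q M v i * AWEQ_S G q M i v = WhE (IG G (q.1 + v)) (Wcx q.2 + M.mulVec (Wcx v)) (Wcx q.2 + M.mulVec (Wcx v)) := by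
  rw [← AWEQ_A2 G hs q M v (Wcx q.2 + M.mulVec (Wcx v))]
  refine Finset.sum_congr rfl fun i _ => ?_
  rw [Pi.add_apply, AWEQ_g]
  ring

lemma AWEQ_A4 (G : V d → V d →L[ℝ] V d) (hI : ContDiff ℝ ∞ (IG G)) (hs : ∀ x u v : V d, ⟪IG G x u, v⟫_ℝ = ⟪u, IG G x v⟫_ℝ) (q : P d) (M : MC d) (v : V d) :
    ∑ i, ∑ j, (M j i * (((IG G (q.1 + v) (EuclideanSpace.single i 1)) j : ℝ) : ℂ) + AWEQ_g q M v j * (((fderiv ℝ (IG G) (q.1 + v) (EuclideanSpace.single i 1) (EuclideanSpace.single i 1)) j : ℝ) : ℂ)) = Wdv G q M v := by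
  unfold Wdv
  have e1 : ∑ i, ∑ j, (M j i * (((IG G (q.1 + v) (EuclideanSpace.single i 1)) j : ℝ) : ℂ) + AWEQ_g q M v j * (((fderiv ℝ (IG G) (q.1 + v) (EuclideanSpace.single i 1) (EuclideanSpace.single i 1)) j : ℝ) : ℂ)) =
      ∑ i, ∑ j, AWEQ_g q M v j * (((fderiv ℝ (IG G) (q.1 + v) (EuclideanSpace.single i 1) (EuclideanSpace.single i 1)) j : ℝ) : ℂ) + ∑ i, ∑ j, M j i * (((IG G (q.1 + v) (EuclideanSpace.single i 1)) j : ℝ) : ℂ) := by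
    rw [← Finset.sum_add_distrib]
    refine Finset.sum_congr rfl fun i _ => ?_
    rw [← Finset.sum_add_distrib]
    refine Finset.sum_congr rfl fun j _ => ?_
    ring
  rw [e1]
  have e2 : ∑ i, ∑ j, M j i * (((IG G (q.1 + v) (EuclideanSpace.single i 1)) j : ℝ) : ℂ) = ∑ i, ∑ j, (((IG G (q.1 + v) (EuclideanSpace.single j 1)) i : ℝ) : ℂ) * M i j := by
    rw [Finset.sum_comm]
    refine Finset.sum_congr rfl fun i _ => Finset.sum_congr rfl fun j _ => ?_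
    ring
  rw [e2]
  congr 1
  refine Finset.sum_congr rfl fun i _ => ?_
  unfold WhE
  symm
  rw [Finset.sum_eq_single i]
  · refine Finset.sum_congr rfl fun j _ => ?_
    rw [AWEQ_dsym G hI hs q.1 v (EuclideanSpace.single i 1) i j, Pi.add_apply, AWEQ_g]
    have : Wcx (EuclideanSpace.single i (1 : ℝ) : V d) i = 1 := by simp [Wcx]
    rw [this]
    ring
  · intro a _ ha
    refine Finset.sum_eq_zero fun b _ => ?_
    have : Wcx (EuclideanSpace.single i (1 : ℝ) : V d) a = 0 := by simp [Wcx, ha]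
    rw [this]
    ring
  · intro hi; exact absurd (Finset.mem_univ i) hi

/-- the whole divergence -/
lemma AWEQ_div (G : V d → V d →L[ℝ] V d) (hI : ContDiff ℝ ∞ (IG G)) (hs : ∀ x u v : V d, ⟪IG G x u, v⟫_ℝ = ⟪u, IG G x v⟫_ℝ) (ch : ℝ → ℝ) (ζ1 R : ℝ) (h : CH ch) (q : P d) (M : MC d) (hM : M.transpose = M) (v : V d) :
    ∑ i, fderiv ℝ (fun y => fderiv ℝ (AWEQ_U ch ζ1 R q.2 M) y (IG G (q.1 + y) (EuclideanSpace.single i 1))) v (EuclideanSpace.single i 1) =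
      AWEQ_E R q.2 M v * ((Complex.I * (R : ℂ)) ^ 2 * WhE (IG G (q.1 + v)) (Wcx q.2 + M.mulVec (Wcx v)) (Wcx q.2 + M.mulVec (Wcx v)) * WX ch ζ1 R v +
        2 * (Complex.I * (R : ℂ)) * WhE (IG G (q.1 + v)) (fun i => fderiv ℝ (WX ch ζ1 R) v (EuclideanSpace.single i 1)) (Wcx q.2 + M.mulVec (Wcx v)) +
        Complex.I * (R : ℂ) * Wdv G q M v * WX ch ζ1 R v + ∑ i : Fin d, fderiv ℝ (fun y => fderiv ℝ (WX ch ζ1 R) y (IG G (q.1 + y) (EuclideanSpace.single i 1))) v (EuclideanSpace.single i 1)) := by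
  have e1 : ∀ i, fderiv ℝ (fun y => fderiv ℝ (AWEQ_U ch ζ1 R q.2 M) y (IG G (q.1 + y) (EuclideanSpace.single i 1))) v (EuclideanSpace.single i 1) =
      AWEQ_E R q.2 M v * ((Complex.I * (R : ℂ)) ^ 2 * WX ch ζ1 R v * (AWEQ_g q M v i * AWEQ_S G q M i v) + Complex.I * (R : ℂ) * (AWEQ_g q M v i * AWEQ_K G ch ζ1 R q i v) +
        Complex.I * (R : ℂ) * WX ch ζ1 R v * (∑ j, (M j i * (((IG G (q.1 + v) (EuclideanSpace.single i 1)) j : ℝ) : ℂ) + AWEQ_g q M v j * (((fderiv ℝ (IG G) (q.1 + v) (EuclideanSpace.single i 1) (EuclideanSpace.single i 1)) j : ℝ) : ℂ))) +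
        Complex.I * (R : ℂ) * (AWEQ_S G q M i v * fderiv ℝ (WX ch ζ1 R) v (EuclideanSpace.single i 1)) + fderiv ℝ (AWEQ_K G ch ζ1 R q i) v (EuclideanSpace.single i 1)) := fun i => by
    rw [AWEQ_T G hI ch ζ1 R h q M hM v i]
    ring
  simp only [e1]
  rw [← Finset.mul_sum]
  congr 1
  simp only [Finset.sum_add_distrib, ← Finset.mul_sum]
  rw [AWEQ_A1, AWEQ_A2 G hs, AWEQ_A3 G hs]
  have e4 := AWEQ_A4 G hI hs q M v
  simp only [Finset.sum_add_distrib] at e4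
  rw [e4]
  have e5 : ∑ i : Fin d, fderiv ℝ (AWEQ_K G ch ζ1 R q i) v (EuclideanSpace.single i 1) = ∑ i : Fin d, fderiv ℝ (fun y => fderiv ℝ (WX ch ζ1 R) y (IG G (q.1 + y) (EuclideanSpace.single i 1))) v (EuclideanSpace.single i 1) := rfl
  rw [e5]
  ring

lemma AWEQ_shift (F : V d → ℂ) (c : ℂ) (x v : V d) (hF : DifferentiableAt ℝ F v) (z : V d) :
    fderiv ℝ (fun y => c * F (y - x)) (x + v) z = c * fderiv ℝ F v z := by
  have h1 : HasFDerivAt (fun y : V d => y - x) (ContinuousLinearMap.id ℝ (V d)) (x + v) := (hasFDerivAt_id _).sub_const x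
  have hv : x + v - x = v := add_sub_cancel_left x v
  have h2 : HasFDerivAt F (fderiv ℝ F v) (x + v - x) := by rw [hv]; exact hF.hasFDerivAt
  have h3 : HasFDerivAt (fun y => c * F (y - x)) (c • (fderiv ℝ F v).comp (ContinuousLinearMap.id ℝ (V d))) (x + v) := (h2.comp (x + v) h1).const_mul c
  rw [h3.fderiv]
  rfl

lemma AWEQ_Efac (R : ℝ) (ξ : V d) (M : MC d) (v : V d) : AWEQ_E R ξ M v = Complex.exp (((R * ⟪ξ, v⟫_ℝ : ℝ) : ℂ) * Complex.I) * WE R M v := by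
  rw [AWEQ_E, WE, ← Complex.exp_add, AWEQ_th]
  congr 1
  push_cast
  ring

/-- the beam at a fixed time -/
lemma AWEQ_bt (G : V d → V d →L[ℝ] V d) (Φ : ℝ → P d → P d) (ch : ℝ → ℝ) (ζ1 R : ℝ) (Y0 P0 : MC d) (p : P d) (s : ℝ) (w : V d) :
    bt G Φ ch ζ1 R Y0 P0 p s w = amp Φ p Y0 P0 s * Complex.exp (((R * ((Ham G p + 1 / 2) * s) : ℝ) : ℂ) * Complex.I) * AWEQ_U ch ζ1 R (Φ s p).2 (Mt Φ p Y0 P0 s) (w - (Φ s p).1) * (((Real.sqrt (dens G w))⁻¹ : ℝ) : ℂ) := by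
  rw [bt, bm, AWEQ_U, AWEQ_E, WX, AWEQ_th]
  push_cast
  ring


/-- the time derivative of the spatial part -/
lemma AWEQ_time (G : V d → V d →L[ℝ] V d) (Φ : ℝ → P d → P d) (hF : IsFlow G Φ) (ch : ℝ → ℝ) (ζ1 R : ℝ) (h : CH ch) (Y0 P0 : MC d) (p : P d) (t : ℝ) (v : V d) (M' : MC d)
    (hM : (Mt Φ p Y0 P0 t).transpose = Mt Φ p Y0 P0 t) (hM' : ∀ i j, HasDerivAt (fun s => Mt Φ p Y0 P0 s i j) (M' i j) t) :
    HasDerivAt (fun s => AWEQ_U ch ζ1 R (Φ s p).2 (Mt Φ p Y0 P0 s) ((Φ t p).1 + v - (Φ s p).1))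
      (AWEQ_E R (Φ t p).2 (Mt Φ p Y0 P0 t) v * (Complex.I * (R : ℂ) * (((⟪(XH G (Φ t p)).2, v⟫_ℝ : ℝ) : ℂ) - ((⟪(Φ t p).2, (XH G (Φ t p)).1⟫_ℝ : ℝ) : ℂ) + qf M' v / 2 - (∑ i, ((Mt Φ p Y0 P0 t).mulVec (Wcx v)) i * ((((XH G (Φ t p)).1 i : ℝ)) : ℂ))) * WX ch ζ1 R v -
        fderiv ℝ (WX ch ζ1 R) v (vel G (Φ t p)))) t := by
  have h0 := hF.deriv t p
  have hx : HasDerivAt (fun s => (Φ s p).1) (XH G (Φ t p)).1 t := (ContinuousLinearMap.fst ℝ (V d) (V d)).hasFDerivAt.comp_hasDerivAt t h0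
  have hξ : HasDerivAt (fun s => (Φ s p).2) (XH G (Φ t p)).2 t := (ContinuousLinearMap.snd ℝ (V d) (V d)).hasFDerivAt.comp_hasDerivAt t h0
  have hv : HasDerivAt (fun s => (Φ t p).1 + v - (Φ s p).1) (-(XH G (Φ t p)).1) t := hx.const_sub _
  have hvt : (Φ t p).1 + v - (Φ t p).1 = v := add_sub_cancel_left _ _
  have hq := AWEQ_qft (fun s => Mt Φ p Y0 P0 s) (fun s => (Φ t p).1 + v - (Φ s p).1) M' (-(XH G (Φ t p)).1) t hM hM' hv
  simp only [hvt] at hq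
  have hi : HasDerivAt (fun s => ⟪(Φ s p).2, (Φ t p).1 + v - (Φ s p).1⟫_ℝ) (⟪(Φ t p).2, -(XH G (Φ t p)).1⟫_ℝ + ⟪(XH G (Φ t p)).2, v⟫_ℝ) t := by
    have := hξ.inner ℝ hv
    simp only [hvt] at this
    exact this
  have hth : HasDerivAt (fun s => AWEQ_th (Φ s p).2 (Mt Φ p Y0 P0 s) ((Φ t p).1 + v - (Φ s p).1))
      (((⟪(Φ t p).2, -(XH G (Φ t p)).1⟫_ℝ + ⟪(XH G (Φ t p)).2, v⟫_ℝ : ℝ) : ℂ) + (qf M' v + 2 * ∑ j, (Mt Φ p Y0 P0 t).mulVec (Wcx v) j * (((-(XH G (Φ t p)).1) j : ℝ) : ℂ)) / 2) t :=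
    hi.ofReal_comp.add (hq.div_const 2)
  have hE : HasDerivAt (fun s => AWEQ_E R (Φ s p).2 (Mt Φ p Y0 P0 s) ((Φ t p).1 + v - (Φ s p).1)) (Complex.exp (Complex.I * (R : ℂ) * AWEQ_th (Φ t p).2 (Mt Φ p Y0 P0 t) ((Φ t p).1 + v - (Φ t p).1)) * (Complex.I * (R : ℂ) *
      (((⟪(Φ t p).2, -(XH G (Φ t p)).1⟫_ℝ + ⟪(XH G (Φ t p)).2, v⟫_ℝ : ℝ) : ℂ) + (qf M' v + 2 * ∑ j, (Mt Φ p Y0 P0 t).mulVec (Wcx v) j * (((-(XH G (Φ t p)).1) j : ℝ) : ℂ)) / 2))) t :=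
    (hth.const_mul (Complex.I * (R : ℂ))).cexp
  have hX0 : HasFDerivAt (WX ch ζ1 R : V d → ℂ) (fderiv ℝ (WX ch ζ1 R) v) ((Φ t p).1 + v - (Φ t p).1) := by
    rw [hvt]
    exact (((AWEQ_WX ch ζ1 R h).differentiable (by simp)) v).hasFDerivAt
  have hX : HasDerivAt (fun s => WX ch ζ1 R ((Φ t p).1 + v - (Φ s p).1)) (fderiv ℝ (WX ch ζ1 R) v (-(XH G (Φ t p)).1)) t :=
    HasFDerivAt.comp_hasDerivAt (f := fun s => (Φ t p).1 + v - (Φ s p).1) t hX0 hv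
  have hU := hE.mul hX
  simp only [hvt] at hU
  refine hU.congr_deriv ?_
  have e1 : ∑ j, (Mt Φ p Y0 P0 t).mulVec (Wcx v) j * (((-(XH G (Φ t p)).1) j : ℝ) : ℂ) = -∑ i, ((Mt Φ p Y0 P0 t).mulVec (Wcx v)) i * ((((XH G (Φ t p)).1 i : ℝ)) : ℂ) := by
    rw [← Finset.sum_neg_distrib]
    refine Finset.sum_congr rfl fun j _ => ?_
    rw [PiLp.neg_apply]
    push_cast
    ring
  rw [e1, map_neg, inner_neg_right]
  have e2 : (XH G (Φ t p)).1 = vel G (Φ t p) := rfl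
  rw [e2]
  change AWEQ_E R (Φ t p).2 (Mt Φ p Y0 P0 t) v * _ * _ + AWEQ_E R (Φ t p).2 (Mt Φ p Y0 P0 t) v * _ = _
  push_cast
  ring

theorem AWEQ_proof (hAWMT : AWMT_stmt) (hAWR3 : AWR3_stmt) (hAHLD : AHLD_stmt) (hGUN : GUN_stmt) (_hGXH : GXH_stmt) (_hGIN : GIN_stmt) : AWEQ_stmt := by
  intro d Γ _ _ K k B G Φ L Y0 P0 ch ζ1 R hok hLag hch _ _ hR p t v
  obtain ⟨h1, _, _, h4, h5⟩ := hAWMT d G Φ hok.cls.met hok.flow L Y0 P0 hLag
  obtain ⟨C, _, hC⟩ := hAHLD d Γ K k B 0 0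
  obtain ⟨hlap, _, hI, hs, _⟩ := hC G hok.fd hok.cls
  have hM : (Mt Φ p Y0 P0 t).transpose = Mt Φ p Y0 P0 t := (h1 p t).2.1
  have hr3 := hAWR3 d G hok.cls.met (Φ t p) (Mt Φ p Y0 P0 t) v hM
  have hHam : Ham G (Φ t p) = Ham G p := ((hGUN d G Φ hok.cls.met hok.flow).2.2.1 t p).1
  rw [hHam] at hr3
  have hvt : (Φ t p).1 + v - (Φ t p).1 = v := add_sub_cancel_left _ _
  have hU := AWEQ_time G Φ hok.flow ch ζ1 R hch Y0 P0 p t v _ hM (fun i j => h4 p t i j)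
  have hA := h5 p t
  have hS : HasDerivAt (fun s : ℝ => Complex.exp (((R * ((Ham G p + 1 / 2) * s) : ℝ) : ℂ) * Complex.I)) (Complex.exp (((R * ((Ham G p + 1 / 2) * t) : ℝ) : ℂ) * Complex.I) * (((R * ((Ham G p + 1 / 2) * 1) : ℝ) : ℂ) * Complex.I)) t := by
    have e := (((hasDerivAt_id t).const_mul (Ham G p + 1 / 2)).const_mul R).ofReal_comp.mul_const Complex.I
    exact e.cexp
  have hB := (((hA.mul hS).mul hU).mul_const (((Real.sqrt (dens G ((Φ t p).1 + v)))⁻¹ : ℝ) : ℂ))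
  have hB' : HasDerivAt (fun s => bt G Φ ch ζ1 R Y0 P0 p s ((Φ t p).1 + v)) _ t := hB.congr_of_eventuallyEq (Eventually.of_forall fun s => AWEQ_bt G Φ ch ζ1 R Y0 P0 p s ((Φ t p).1 + v))
  have hfac := AWEQ_Efac R (Φ t p).2 (Mt Φ p Y0 P0 t) v
  refine ⟨hB'.differentiableAt, ?_, ?_⟩
  · rw [AWEQ_bt, hvt, AWEQ_U, hfac, Wpf]
    ring
  · rw [Eb, hB'.deriv, Hop]
    have hlin : ∀ y z : V d, fderiv ℝ (fun y => amp Φ p Y0 P0 t * Complex.exp (((R * ((Ham G p + 1 / 2) * t) : ℝ) : ℂ) * Complex.I) * AWEQ_U ch ζ1 R (Φ t p).2 (Mt Φ p Y0 P0 t) (y - (Φ t p).1)) y z =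
        amp Φ p Y0 P0 t * Complex.exp (((R * ((Ham G p + 1 / 2) * t) : ℝ) : ℂ) * Complex.I) * fderiv ℝ (AWEQ_U ch ζ1 R (Φ t p).2 (Mt Φ p Y0 P0 t)) (y - (Φ t p).1) z := fun y z => by
      have e := AWEQ_shift (AWEQ_U ch ζ1 R (Φ t p).2 (Mt Φ p Y0 P0 t)) (amp Φ p Y0 P0 t * Complex.exp (((R * ((Ham G p + 1 / 2) * t) : ℝ) : ℂ) * Complex.I)) (Φ t p).1 (y - (Φ t p).1) (AWEQ_Ud ch ζ1 R hch (Φ t p) (Mt Φ p Y0 P0 t) hM _ 0).1 z
      rw [add_sub_cancel] at e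
      exact e
    have hsm : ContDiff ℝ 2 (fun y => amp Φ p Y0 P0 t * Complex.exp (((R * ((Ham G p + 1 / 2) * t) : ℝ) : ℂ) * Complex.I) * AWEQ_U ch ζ1 R (Φ t p).2 (Mt Φ p Y0 P0 t) (y - (Φ t p).1)) := by
      have e := (contDiff_const (c := amp Φ p Y0 P0 t * Complex.exp (((R * ((Ham G p + 1 / 2) * t) : ℝ) : ℂ) * Complex.I))).mul ((AWEQ_Usm ch ζ1 R hch (Φ t p).2 (Mt Φ p Y0 P0 t)).comp (contDiff_id.sub (contDiff_const (c := (Φ t p).1))))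
      exact e.of_le ENat.LEInfty.out
    have hlap1 := hlap _ ((Φ t p).1 + v) hsm
    have ebt : bt G Φ ch ζ1 R Y0 P0 p t = fun y => amp Φ p Y0 P0 t * Complex.exp (((R * ((Ham G p + 1 / 2) * t) : ℝ) : ℂ) * Complex.I) * AWEQ_U ch ζ1 R (Φ t p).2 (Mt Φ p Y0 P0 t) (y - (Φ t p).1) * (((Real.sqrt (dens G y))⁻¹ : ℝ) : ℂ) :=
      funext fun y => AWEQ_bt G Φ ch ζ1 R Y0 P0 p t y
    rw [ebt, hlap1]
    have hterm : ∀ i : Fin d, fderiv ℝ (fun y => fderiv ℝ (fun y => amp Φ p Y0 P0 t * Complex.exp (((R * ((Ham G p + 1 / 2) * t) : ℝ) : ℂ) * Complex.I) * AWEQ_U ch ζ1 R (Φ t p).2 (Mt Φ p Y0 P0 t) (y - (Φ t p).1)) y (IG G y (EuclideanSpace.single i 1))) ((Φ t p).1 + v) (EuclideanSpace.single i 1) =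
        amp Φ p Y0 P0 t * Complex.exp (((R * ((Ham G p + 1 / 2) * t) : ℝ) : ℂ) * Complex.I) * fderiv ℝ (fun y => fderiv ℝ (AWEQ_U ch ζ1 R (Φ t p).2 (Mt Φ p Y0 P0 t)) y (IG G ((Φ t p).1 + y) (EuclideanSpace.single i 1))) v (EuclideanSpace.single i 1) := fun i => by
      have e1 : (fun y => fderiv ℝ (fun y => amp Φ p Y0 P0 t * Complex.exp (((R * ((Ham G p + 1 / 2) * t) : ℝ) : ℂ) * Complex.I) * AWEQ_U ch ζ1 R (Φ t p).2 (Mt Φ p Y0 P0 t) (y - (Φ t p).1)) y (IG G y (EuclideanSpace.single i 1))) =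
          fun y => amp Φ p Y0 P0 t * Complex.exp (((R * ((Ham G p + 1 / 2) * t) : ℝ) : ℂ) * Complex.I) * (fun y' => fderiv ℝ (AWEQ_U ch ζ1 R (Φ t p).2 (Mt Φ p Y0 P0 t)) y' (IG G ((Φ t p).1 + y') (EuclideanSpace.single i 1))) (y - (Φ t p).1) := by
        funext y
        rw [hlin y]
        simp only [add_sub_cancel]
      rw [e1]
      refine AWEQ_shift (fun y' => fderiv ℝ (AWEQ_U ch ζ1 R (Φ t p).2 (Mt Φ p Y0 P0 t)) y' (IG G ((Φ t p).1 + y') (EuclideanSpace.single i 1))) _ _ _ ?_ _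
      have d1 : ContDiff ℝ ∞ (fderiv ℝ (AWEQ_U ch ζ1 R (Φ t p).2 (Mt Φ p Y0 P0 t))) := (AWEQ_Usm ch ζ1 R hch (Φ t p).2 (Mt Φ p Y0 P0 t)).fderiv_right (by simp)
      have d2 : ContDiff ℝ ∞ (fun v : V d => IG G ((Φ t p).1 + v) (EuclideanSpace.single i 1)) := (hI.comp (contDiff_const.add contDiff_id)).clm_apply contDiff_const
      exact ((d1.clm_apply d2).differentiable (by simp)) v
    simp only [hterm]
    rw [← Finset.mul_sum, AWEQ_div G hI hs ch ζ1 R hch (Φ t p) (Mt Φ p Y0 P0 t) hM v, hvt, Wpf, Wmn, Wct, AWEQ_U]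
    rw [mul_right_comm (_ * _ * _) _ (WE R (Mt Φ p Y0 P0 t) v), mul_assoc (_ * _) _ (WE R (Mt Φ p Y0 P0 t) v), ← hfac]
    have hR0 : (R : ℂ) ≠ 0 := by exact_mod_cast (by linarith : R ≠ 0)
    have hRi : (R : ℂ) * (R : ℂ)⁻¹ = 1 := mul_inv_cancel₀ hR0
    have hI2 : Complex.I ^ 2 = -1 := Complex.I_sq
    clear hB hB' hU hA hS hlap1 ebt hterm hsm hlin hlap hC h1 h4 h5 hAWMT hAWR3 hAHLD hGUN
    simp only [Pi.mul_apply]
    push_cast at hr3 ⊢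
    simp only [mul_inv, div_eq_mul_inv] at hr3 ⊢
    generalize (∑ i : Fin d, fderiv ℝ (fun y => fderiv ℝ (WX ch ζ1 R) y (IG G ((Φ t p).1 + y) (EuclideanSpace.single i 1))) v (EuclideanSpace.single i 1)) = A5 at *
    generalize (∑ i, ((Mt Φ p Y0 P0 t).mulVec (Wcx v)) i * ((((XH G (Φ t p)).1 i : ℝ)) : ℂ)) = A6 at *
    generalize AWEQ_E R (Φ t p).2 (Mt Φ p Y0 P0 t) v = E at *
    generalize WX ch ζ1 R v = X at *
    generalize (R : ℂ)⁻¹ = Ri at *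
    rw [← hr3]
    clear hr3 hfac
    generalize WhE (IG G ((Φ t p).1 + v)) (Wcx (Φ t p).2 + Matrix.mulVec (Mt Φ p Y0 P0 t) (Wcx v)) (Wcx (Φ t p).2 + Matrix.mulVec (Mt Φ p Y0 P0 t) (Wcx v)) = W2
    generalize WhE (IG G ((Φ t p).1 + v)) (fun i => (fderiv ℝ (WX ch ζ1 R) v) (EuclideanSpace.single i 1)) (Wcx (Φ t p).2 + Matrix.mulVec (Mt Φ p Y0 P0 t) (Wcx v)) = W1
    generalize Wdv G (Φ t p) (Mt Φ p Y0 P0 t) v = W3
    generalize Wdv G (Φ t p) (Mt Φ p Y0 P0 t) 0 = W0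
    generalize (fderiv ℝ (WX ch ζ1 R) v) (vel G (Φ t p)) = DX
    generalize VG G ((Φ t p).1 + v) = Vg
    generalize (qf (WC (fderiv ℝ (XH G) (Φ t p)) + WD (fderiv ℝ (XH G) (Φ t p)) * Mt Φ p Y0 P0 t - Mt Φ p Y0 P0 t * WA (fderiv ℝ (XH G) (Φ t p)) - Mt Φ p Y0 P0 t * WB (fderiv ℝ (XH G) (Φ t p)) * Mt Φ p Y0 P0 t) v) = QM
    generalize amp Φ p Y0 P0 t = a
    generalize Complex.exp ((R : ℂ) * (((Ham G p : ℝ) + 1 * 2⁻¹) * (t : ℂ)) * Complex.I) = e0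
    generalize ((Ham G p : ℝ) : ℂ) = H
    generalize ((⟪(Φ t p).2, (XH G (Φ t p)).1⟫_ℝ : ℝ) : ℂ) = B1
    generalize ((⟪(XH G (Φ t p)).2, v⟫_ℝ : ℝ) : ℂ) = B2
    generalize (((Real.sqrt (dens G ((Φ t p).1 + v)) : ℝ) : ℂ))⁻¹ = D
    generalize (R : ℂ) = R' at *
    linear_combination (a * e0 * E * D * X * (R' * (H + 1 / 2) + R' * (B2 - B1 + QM / 2 - A6) + 1 / 2 * R' ^ 2 * Ri * W2)) * hI2 +
      (a * e0 * E * D * (-(1 / 2) * R' * W2 * X + Complex.I * W1 + Complex.I / 2 * W3 * X + 1 / 2 * R' * X)) * hRi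

end

end Pool.Agent.VD
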