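import Pool.Agent.helper1.VD.AWEQ
import Pool.Agent.helper14.VD.ABMR
import Pool.Agent.helper18.VD.AWPX
import Pool.Agent.helper26.VD.ABMP
import Pool.Agent.helper32.VD.AWP1
import Pool.Agent.helper33.VD.ABMA
import Pool.Agent.helper33.VD.AWDT
import Pool.Agent.helper33.VD.AWE1
import Pool.Agent.helper34.VD.AWLN
import Pool.Agent.helper34.VD.AWPK
import Pool.Agent.helper34.VD.AWQF
import Pool.Agent.helper5.VD.AWSY
import Pool.Agent.helper5.VD.AWP3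
import Pool.Agent.helper51.VD.AWRG
import Pool.Agent.helper75.VD.AWAM
import Pool.Agent.helper79.VD.AWYT
import Pool.Agent.helper83.VD.AWMT
import Pool.Agent.helper97.VD.AWCT
import Pool.Agent.helper97.VD.AWR3
import Pool.Agent.helper27.VD.AWE2
import Pool.Agent.helper65.VD.AWP2
import Pool.Agent.helper24.VD.AWRB
import Pool.Agent.helper46.VD.AWXH

/-!
# Project VD (MP_07c750_an), block A2: assembly

`A2_all`: the final statements ABMA (linear data), ABMP (beams are packets and solve the equation up to an error), ABMR (regularity), from the rows of the flow (GIN, GXH, GUN, GSY) and of block A0 (ACNF, AHLD, AMVI) and the Gaussian profile (ABRD).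
-/

set_option autoImplicit false

namespace Pool.Agent.VD

theorem A2_AWMT (hGIN : GIN_stmt) (hGXH : GXH_stmt) (hGUN : GUN_stmt) (hGSY : GSY_stmt) : AWMT_stmt :=
  AWMT_proof (AWYT_proof hGXH hGUN) AWLN_proof AWDT_proof AWAM_proof (AWXH_proof hGIN hGXH) hGSY

theorem A2_ABMA (hGIN : GIN_stmt) (hGXH : GXH_stmt) (hGUN : GUN_stmt) (hGSY : GSY_stmt) (hACNF : ACNF_stmt) : ABMA_stmt :=
  ABMA_proof (A2_AWMT hGIN hGXH hGUN hGSY) AWLN_proof AWDT_proof hGSY hACNF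

theorem A2_AWEQ (hGIN : GIN_stmt) (hGXH : GXH_stmt) (hGUN : GUN_stmt) (hGSY : GSY_stmt) (hAHLD : AHLD_stmt) : AWEQ_stmt :=
  AWEQ_proof (A2_AWMT hGIN hGXH hGUN hGSY) (AWR3_proof hGIN hGXH (AWXH_proof hGIN hGXH)) hAHLD hGUN hGXH hGIN

theorem A2_ABMR (hGIN : GIN_stmt) (hGXH : GXH_stmt) (hGUN : GUN_stmt) (hGSY : GSY_stmt) (hAHLD : AHLD_stmt) (hAMVI : AMVI_stmt) : ABMR_stmt :=
  ABMR_proof (AWRG_proof (A2_AWMT hGIN hGXH hGUN hGSY) hGXH hAMVI) (A2_AWMT hGIN hGXH hGUN hGSY) AWCT_proof hAHLD hAMVI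

theorem A2_ABMP (hGIN : GIN_stmt) (hGXH : GXH_stmt) (hGUN : GUN_stmt) (hGSY : GSY_stmt) (hACNF : ACNF_stmt) (hAHLD : AHLD_stmt) (hAMVI : AMVI_stmt) (hABRD : ABRD_stmt) : ABMP_stmt := by
  have hABMA := A2_ABMA hGIN hGXH hGUN hGSY hACNF
  have hAWEQ := A2_AWEQ hGIN hGXH hGUN hGSY hAHLD
  have hAWMT := A2_AWMT hGIN hGXH hGUN hGSY
  have hAWYT := AWYT_proof hGXH hGUN
  have hAWQF := AWQF_proof AWSY_proof
  have hAWE1 := AWE1_proof (AWRB_proof hAHLD) hAHLD AWSY_proof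
  have hAWE2 := AWE2_proof AWCT_proof AWSY_proof hAHLD
  exact ABMP_proof (AWP1_proof hABMA hAWEQ AWCT_proof hAWQF AWSY_proof AWPK_proof hAHLD hACNF hABRD)
    (AWP2_proof hABMA hAWEQ hAWE1 hAWE2 AWCT_proof hAWQF AWSY_proof AWPK_proof AWPX_proof hAHLD hACNF hAMVI)
    (AWP3_proof hABMA hAWEQ hAWYT hAWMT AWCT_proof hAWQF AWSY_proof AWPK_proof AWPX_proof hAHLD hACNF hABRD hAMVI) AWPK_proof

/-- ABMA, ABMP and ABMR -/
theorem A2_all (hGIN : GIN_stmt) (hGXH : GXH_stmt) (hGUN : GUN_stmt) (hGSY : GSY_stmt) (hACNF : ACNF_stmt) (hAHLD : AHLD_stmt) (hAMVI : AMVI_stmt) (hABRD : ABRD_stmt) :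
    ABMA_stmt ∧ ABMP_stmt ∧ ABMR_stmt :=
  ⟨A2_ABMA hGIN hGXH hGUN hGSY hACNF, A2_ABMP hGIN hGXH hGUN hGSY hACNF hAHLD hAMVI hABRD, A2_ABMR hGIN hGXH hGUN hGSY hAHLD hAMVI⟩

end Pool.Agent.VD
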