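import Pool.Agent.helper74.VD.SpecI
import Pool.Agent.helper80.VD.SpecF

/-!
# Project VD (MP_07c750_an), block A2: GAUSSIAN BEAMS for one unit of time in the coordinates of one chart, and the change of the chart, rows `vd:AWXX`, `vd:ABMX`

RULES. Row `vd:XXXX`: file `Pool/Agent/<seat>/VD/XXXX.lean`, `import Pool.Agent.helper1.VD.SpecA2`, `set_option autoImplicit false`, namespace `Pool.Agent.VD`, auxiliary lemmas prefixed `XXXX_`, theorem `XXXX_proof (h..) : XXXX_stmt` (rows listed in `from` may be used as hypotheses `(h : YYYY_stmt)`; more may be added).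
No `convert`, `congr!`, `native_decide`, no double quotes, no `private`, no command starting with a sharp sign.

NOTATION. At the point `q = (x, ξ) = Φ t p`, `v = w - x`, `M = Mt Φ p Y0 P0 t`, `h = IG G`. `u = dens^(1/2) bt = a e^(iRS) e^(iR ξ·v) X(v) E(v)` with `a = amp`, `S = (Ham G p + 1/2) t`, `X = WX ch ζ1 R`, `E = WE R M = exp (i R ⟨M v, v⟩/2)`. The gradient of the phase is `g = ξ + M v`.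
-/

set_option autoImplicit false

open scoped ContDiff Topology InnerProductSpace ComplexConjugate ENNReal
open MeasureTheory Filter Set

namespace Pool.Agent.VD

open Pool.Agent.VQ (CH)

noncomputable section

/-! ## Definitions -/

section defs

variable {d : ℕ}

/-- the blocks of a linear map `(x, ξ) ↦ (x', ξ')` of phase space: `∂x'/∂x` -/
def WA (T : P d →L[ℝ] P d) : MC d := Matrix.of fun i j => ((((T (EuclideanSpace.single j 1, 0)).1 i : ℝ)) : ℂ)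

/-- `∂x'/∂ξ` -/
def WB (T : P d →L[ℝ] P d) : MC d := Matrix.of fun i j => ((((T (0, EuclideanSpace.single j 1)).1 i : ℝ)) : ℂ)

/-- `∂ξ'/∂x` -/
def WC (T : P d →L[ℝ] P d) : MC d := Matrix.of fun i j => ((((T (EuclideanSpace.single j 1, 0)).2 i : ℝ)) : ℂ)

/-- `∂ξ'/∂ξ` -/
def WD (T : P d →L[ℝ] P d) : MC d := Matrix.of fun i j => ((((T (0, EuclideanSpace.single j 1)).2 i : ℝ)) : ℂ)

/-- real vectors as complex vectors -/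
def Wcx (u : V d) : Fin d → ℂ := fun i => ((u i : ℝ) : ℂ)

/-- the complex bilinear form of a real operator: `∑ A_ij a_i b_j` -/
def WhE (A : V d →L[ℝ] V d) (a b : Fin d → ℂ) : ℂ := ∑ i, ∑ j, (((A (EuclideanSpace.single j 1)) i : ℝ) : ℂ) * (a i * b j)

/-- the remainder of the eikonal equation, of third order at `v = 0`: Taylor remainders of `h` at `x` of order 2, 1, 0 applied to `(ξ, ξ)`, `(ξ, M v)`, `(M v, M v)` -/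
def Wr3 (G : V d → V d →L[ℝ] V d) (q : P d) (M : MC d) (v : V d) : ℂ :=
  1 / 2 * WhE (IG G (q.1 + v) - IG G q.1 - fderiv ℝ (IG G) q.1 v - (1 / 2 : ℝ) • fderiv ℝ (fderiv ℝ (IG G)) q.1 v v) (Wcx q.2) (Wcx q.2) +
  WhE (IG G (q.1 + v) - IG G q.1 - fderiv ℝ (IG G) q.1 v) (Wcx q.2) (M.mulVec (Wcx v)) +
  1 / 2 * WhE (IG G (q.1 + v) - IG G q.1) (M.mulVec (Wcx v)) (M.mulVec (Wcx v))

/-- `∂_i (h^(ij) g_j)` at `x + v`, `g = ξ + M v` -/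
def Wdv (G : V d → V d →L[ℝ] V d) (q : P d) (M : MC d) (v : V d) : ℂ :=
  (∑ i, WhE (fderiv ℝ (IG G) (q.1 + v) (EuclideanSpace.single i 1)) (Wcx (EuclideanSpace.single i 1)) (Wcx q.2 + M.mulVec (Wcx v))) +
    ∑ i, ∑ j, (((IG G (q.1 + v) (EuclideanSpace.single j 1)) i : ℝ) : ℂ) * M i j

/-- the cut-off (complex valued) -/
def WX (ch : ℝ → ℝ) (ζ1 R : ℝ) (v : V d) : ℂ := ((ch (R ^ (1 - 2 * ζ1) * ‖v‖ ^ 2) : ℝ) : ℂ)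

/-- the Gaussian factor -/
def WE (R : ℝ) (M : MC d) (v : V d) : ℂ := Complex.exp (Complex.I * (R : ℂ) * (qf M v / 2))

/-- the terms with derivatives of the cut-off -/
def Wct (G : V d → V d →L[ℝ] V d) (ch : ℝ → ℝ) (ζ1 R : ℝ) (q : P d) (M : MC d) (v : V d) : ℂ :=
  Complex.I * (-(fderiv ℝ (WX ch ζ1 R) v (vel G q)) + WhE (IG G (q.1 + v)) (fun i => fderiv ℝ (WX ch ζ1 R) v (EuclideanSpace.single i 1)) (Wcx q.2 + M.mulVec (Wcx v))) +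
  (2 * (R : ℂ))⁻¹ * ∑ i : Fin d, fderiv ℝ (fun y => fderiv ℝ (WX ch ζ1 R) y (IG G (q.1 + y) (EuclideanSpace.single i 1))) v (EuclideanSpace.single i 1)

/-- the main term of the error -/
def Wmn (G : V d → V d →L[ℝ] V d) (R : ℝ) (q : P d) (M : MC d) (v : V d) : ℂ :=
  -(R : ℂ) * Wr3 G q M v + Complex.I / 2 * (Wdv G q M v - Wdv G q M 0) - VG G (q.1 + v) / (2 * (R : ℂ))

/-- pointwise symbol estimates at `v` -/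
def WS (K : ℕ) (N m : ℝ) (A : V d → ℂ) (v : V d) : Prop := ContDiffAt ℝ ∞ A v ∧ ∀ k ≤ K, ‖iteratedFDeriv ℝ k A v‖ ≤ m * N ^ k

/-- the prefactor `a e^(iRS) e^(iR ξ·v) dens(x + v)^(-1/2)` -/
def Wpf (G : V d → V d →L[ℝ] V d) (Φ : ℝ → P d → P d) (R : ℝ) (Y0 P0 : MC d) (p : P d) (t : ℝ) (v : V d) : ℂ :=
  amp Φ p Y0 P0 t * Complex.exp (((R * ((Ham G p + 1 / 2) * t) : ℝ) : ℂ) * Complex.I) * Complex.exp (((R * ⟪(Φ t p).2, v⟫_ℝ : ℝ) : ℂ) * Complex.I) * (((Real.sqrt (dens G ((Φ t p).1 + v)))⁻¹ : ℝ) : ℂ)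

/-- the transition map in the coordinates centred at `κ x` and `x`: `v ↦ κ⁻¹ (κ x + v) - x` -/
def Wl {Γ : Type} [Group Γ] [MulAction Γ (V d)] (κ : Γ) (x v : V d) : V d := κ⁻¹ • (κ • x + v) - x

/-- the first derivative of `κ⁻¹` at `κ x` -/
def Wl1 {Γ : Type} [Group Γ] [MulAction Γ (V d)] (κ : Γ) (x v : V d) : V d := fderiv ℝ (fun y : V d => κ⁻¹ • y) (κ • x) v

/-- the second derivative of `κ⁻¹` at `κ x` -/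
def Wl2 {Γ : Type} [Group Γ] [MulAction Γ (V d)] (κ : Γ) (x v w : V d) : V d := fderiv ℝ (fderiv ℝ (fun y : V d => κ⁻¹ • y)) (κ • x) v w

/-- the remainder of the phase in the new chart -/
def Wrk {Γ : Type} [Group Γ] [MulAction Γ (V d)] (κ : Γ) (q : P d) (M : MC d) (v : V d) : ℂ :=
  ((⟪q.2, Wl κ q.1 v⟫_ℝ : ℝ) : ℂ) + qf M (Wl κ q.1 v) / 2 - (((⟪q.2, Wl1 κ q.1 v⟫_ℝ : ℝ) : ℂ) + (qf M (Wl1 κ q.1 v) + ((⟪q.2, Wl2 κ q.1 v v⟫_ℝ : ℝ) : ℂ)) / 2)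

/-- the Jacobian factor `|det Dκ|^(-1/2)` at `κ⁻¹ (κ x + v)` -/
def Wj {Γ : Type} [Group Γ] [MulAction Γ (V d)] (κ : Γ) (x v : V d) : ℝ := (Real.sqrt |(fderiv ℝ (fun y : V d => κ • y) (κ⁻¹ • (κ • x + v))).det|)⁻¹

end defs

/-! ## 1. PURE rows: symbols -/

/-- **Row AWSY** (PURE; short-medium; model helper17/VQ/VSY.lean). Product: `norm_iteratedFDeriv_mul_le` (pointwise version `norm_iteratedFDeriv_mul_le` needs `ContDiff`; use `ContDiffAt` variants, or replace the functions by global smooth ones near `v`; `C = 2^K`). `exp ∘ ψ`: pointwise Faa di Bruno `norm_iteratedFDeriv_comp_le` (or the version for `ContDiffWithinAt`/`ContDiffAt`) with `‖D^i exp (z)‖ ≤ exp (re z)`, `C = K!`.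
Third part: `k = 0`: `‖exp z - 1‖ ≤ 2 ‖z‖` for `‖z‖ ≤ 1`; `k ≥ 1`: the derivative of `exp ψ - 1` is `exp ψ • fderiv ψ`, Leibniz for `D^(k-1)` of this product (`norm_iteratedFDeriv_smul_le`, `norm_iteratedFDeriv_fderiv`): every term has a factor `‖D^j ψ‖ ≤ ε N^j`, `j ≥ 1`. -/
def AWSY_stmt : Prop := ∀ (d K : ℕ), ∃ C : ℝ, 1 ≤ C ∧
  (∀ (N m1 m2 : ℝ) (A1 A2 : V d → ℂ) (v : V d), 1 ≤ N → 0 ≤ m1 → 0 ≤ m2 → WS K N m1 A1 v → WS K N m2 A2 v → WS K N (C * m1 * m2) (fun w => A1 w * A2 w) v ∧ WS K N (m1 + m2) (fun w => A1 w + A2 w) v) ∧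
  (∀ (N : ℝ) (ψ : V d → ℂ) (v : V d), 1 ≤ N → ContDiffAt ℝ ∞ ψ v → (∀ k, 1 ≤ k → k ≤ K → ‖iteratedFDeriv ℝ k ψ v‖ ≤ N ^ k) → WS K N (C * Real.exp (ψ v).re) (fun w => Complex.exp (ψ w)) v) ∧
  ∀ (N ε : ℝ) (ψ : V d → ℂ) (v : V d), 1 ≤ N → 0 ≤ ε → ε ≤ 1 → WS K N ε ψ v → WS K N (C * ε) (fun w => Complex.exp (ψ w) - 1) v

/-- **Row AWCT** (PURE; short-medium; adaptation of `VCT_proof` in helper9/VQ/VCT.lean to `V d`). `WX v = ch (‖R^(1/2-ζ) v‖²)` is a fixed smooth compactly supported function scaled by `R^(1/2-ζ) ≤ R^(1/2)`; `ch = 1` for `s ≤ 1/2`, `0` for `s ≥ 1`. -/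
def AWCT_stmt : Prop := ∀ (d : ℕ) (ch : ℝ → ℝ) (K : ℕ), CH ch → ∃ C : ℝ, 1 ≤ C ∧ ∀ ζ R : ℝ, 0 ≤ ζ → ζ ≤ 1 / 2 → 1 ≤ R →
  ContDiff ℝ ∞ (WX ch ζ R : V d → ℂ) ∧ (∀ v : V d, ‖WX ch ζ R v‖ ≤ 1) ∧ (∀ v : V d, WX ch ζ R v ≠ 0 → ‖v‖ ≤ R ^ (-(1 / 2) + ζ)) ∧
  (∀ k ≤ K, ∀ v : V d, ‖iteratedFDeriv ℝ k (WX ch ζ R : V d → ℂ) v‖ ≤ C * (R ^ (1 / 2 : ℝ)) ^ k) ∧
  (∀ v : V d, ‖v‖ < R ^ (-(1 / 2) + ζ) / 2 → (WX ch ζ R : V d → ℂ) =ᶠ[𝓝 v] fun _ => 1) ∧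
  ∀ v : V d, R ^ (-(1 / 2) + ζ) < ‖v‖ → (WX ch ζ R : V d → ℂ) =ᶠ[𝓝 v] fun _ => 0

/-- **Row AWQF** (PURE; short-medium; from AWSY). `ψ v = i R qf M v/2` is a quadratic form: `‖Dψ(v)‖ ≤ d² R m ‖v‖ ≤ d² m R^(1/2+η)`, `‖D²ψ‖ ≤ 2 d² R m`, `D^k ψ = 0` for `k ≥ 3`, so `‖D^k ψ(v)‖ ≤ (C m R^(1/2+η))^k` for `k ≥ 1`; `re ψ = -(R/2) im qf`. -/
def AWQF_stmt : Prop := ∀ (d K : ℕ), ∃ C : ℝ, 1 ≤ C ∧ ∀ (R m η : ℝ) (M : MC d) (v : V d), 1 ≤ R → 1 ≤ m → 0 ≤ η → (∀ i j, ‖M i j‖ ≤ m) → ‖v‖ ≤ R ^ (-(1 / 2) + η) →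
  ContDiff ℝ ∞ (WE R M) ∧ WS K (C * m * R ^ (1 / 2 + η)) (C * Real.exp (-(R / 2 * (qf M v).im))) (WE R M) v

/-- **Row AWPK** (PURE; short). Criterion for the class `Pk`, and monotonicity. -/
def AWPK_stmt : Prop := ∀ (d K : ℕ) (R : ℝ) (q : P d), 1 ≤ R →
  (∀ (ζ1 η m : ℝ) (A f : V d → ℂ), ζ1 ≤ η → 0 ≤ m → ContDiff ℝ ∞ A → (∀ v, R ^ (-(1 / 2) + ζ1) < ‖v‖ → A =ᶠ[𝓝 v] fun _ => 0) →
    (∀ v, ‖v‖ ≤ R ^ (-(1 / 2) + ζ1) → ∀ k ≤ K, ‖iteratedFDeriv ℝ k A v‖ ≤ m * (R ^ (1 / 2 + η)) ^ k) → (∀ w, f w = Complex.exp (((R * ⟪q.2, w - q.1⟫_ℝ : ℝ) : ℂ) * Complex.I) * A (w - q.1)) → Pk K η m R q f) ∧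
  (∀ (η η' m m' : ℝ) (f : V d → ℂ), η ≤ η' → 0 ≤ m → m ≤ m' → Pk K η m R q f → Pk K η' m' R q f) ∧
  ∀ (η m m' : ℝ) (f g : V d → ℂ), Pk K η m R q f → Pk K η m' R q g → Pk K η (m + m') R q (fun w => f w + g w) ∧ Pk K η m R q (fun w => -f w)

/-- **Row AWPX** (PURE; short). The exponent is at least `R^(2 ζ1 - 2 e)/(4 C0) ≥ R^ζ1/(4 C0)`, and `C0 exp (-R^ζ1/(4 C0)) ≤ R^(-M)` for large `R`. -/
def AWPX_stmt : Prop := ∀ (C0 ζ1 M : ℝ), 0 < ζ1 → 1 ≤ C0 → ∃ R0 : ℝ, 1 ≤ R0 ∧ ∀ R e ρ : ℝ, R0 ≤ R → 0 ≤ e → 4 * e ≤ ζ1 → R ^ (-(1 / 2) + ζ1) / (2 * C0) ≤ ρ →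
  C0 * Real.exp (-(R * ρ ^ 2 / (C0 * R ^ (2 * e)))) ≤ R ^ (-M)

/-! ## 2. The linear data -/

/-- **Row AWLN** (PURE linear algebra; short-medium). For `A = WA T`, .. (real matrices): `Aᵀ C = Cᵀ A`, `Bᵀ D = Dᵀ B`, `Aᵀ D - Cᵀ B = 1` (`omg` of images of basis vectors: `omg (e_j, 0) (e_k, 0) = 0`, `omg (0, e_j) (0, e_k) = 0`, `omg (0, e_j) (e_k, 0) = δ_jk`). So `Yᵀ P - Pᵀ Y = Y0ᵀ P0 - P0ᵀ Y0` and `Y* P - P* Y = Y0* P0 - P0* Y0` (`A* = Aᵀ`, ..).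
Entries: `|(T e_j).1 i| ≤ ‖T‖` (`‖(u, w)‖ = max`), so the entries of `Y`, `P` are `≤ 2 d ‖T‖ L`. -/
def AWLN_stmt : Prop := ∀ (d : ℕ) (T : P d →L[ℝ] P d), (∀ v w : P d, omg (T v) (T w) = omg v w) → ∀ (L : ℝ) (Y0 P0 : MC d), 0 ≤ L → Lag L Y0 P0 →
  Lag (2 * (d + 1) * (1 + ‖T‖) * L) (WA T * Y0 + WB T * P0) (WC T * Y0 + WD T * P0)

/-- **Row AWDT** (PURE linear algebra; medium; model helper39/VQ/VYA.lean, VYB). `2 |x|² = |x* (Y* Q - Q* Y) x| ≤ 2 |Y x| |Q x| ≤ 2 d L |x| |Y x|`, so `|Y x| ≥ |x|/(d L)`: `det Y ≠ 0`, `‖Y⁻¹‖ ≤ d L`, determinants of matrices with entries `≤ c` are `≤ d! c^d`. `M = Q Y⁻¹`: `Yᵀ Q = Qᵀ Y` gives `M = Mᵀ`; `M - M* = 2 i (Y Y*)⁻¹` (multiply by `Y*` and `Y`),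
so (`Mᵀ = M`, `w` real) `im (qf M w) = |Y⁻¹ w|² ≥ |w|²/(d L)²`. -/
def AWDT_stmt : Prop := ∀ d : ℕ, ∃ C : ℝ, 1 ≤ C ∧ ∀ (L : ℝ) (Y Q : MC d), 1 ≤ L → Lag L Y Q →
  Y.det ≠ 0 ∧ (Q * Y⁻¹).transpose = Q * Y⁻¹ ∧ (∀ i j, ‖Y⁻¹ i j‖ ≤ C * L) ∧ (∀ i j, ‖(Q * Y⁻¹) i j‖ ≤ C * L ^ 2) ∧ ‖Y.det‖ ≤ C * L ^ d ∧ ‖Y.det‖⁻¹ ≤ C * L ^ d ∧
  ∀ w : V d, ‖w‖ ^ 2 ≤ C * L ^ 2 * (qf (Q * Y⁻¹) w).im

/-- **Row AWAM** (PURE; medium). `f r = tr (Y' Y⁻¹)` is continuous (`Matrix.inv` = `Ring.inverse det • adjugate`, polynomials in the entries; `continuous_of` entries), so `∫` is differentiable (`intervalIntegral.integral_hasDerivAt_right`). JACOBI: `(det Y)' = tr (Y' Y⁻¹) det Y` (`Matrix.det_apply`, product rule, or `Matrix.derivative_det_one_add_X_smul`, or the derivative of the multilinear map `det`: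
`∑_j det (Y with column j replaced by Y'_j) = tr (adjugate Y * Y')`). So `a² det Y` has derivative `0`. -/
def AWAM_stmt : Prop := ∀ (d : ℕ) (Y : ℝ → MC d), (∀ i j, ContDiff ℝ 1 fun t => Y t i j) → (∀ t, (Y t).det ≠ 0) → ∀ t : ℝ,
  HasDerivAt (fun s => Complex.exp (-(1 / 2) * ∫ r in (0 : ℝ)..s, Matrix.trace ((Matrix.of fun i j => deriv (fun u => Y u i j) r) * (Y r)⁻¹)))
    (-(1 / 2) * Matrix.trace ((Matrix.of fun i j => deriv (fun u => Y u i j) t) * (Y t)⁻¹) * Complex.exp (-(1 / 2) * ∫ r in (0 : ℝ)..t, Matrix.trace ((Matrix.of fun i j => deriv (fun u => Y u i j) r) * (Y r)⁻¹))) t ∧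
  Complex.exp (-(1 / 2) * ∫ r in (0 : ℝ)..t, Matrix.trace ((Matrix.of fun i j => deriv (fun u => Y u i j) r) * (Y r)⁻¹)) ^ 2 * (Y t).det = (Y 0).det

/-- **Row AWXH** (short-medium; from GIN, GXH). The blocks of the derivative of the Hamiltonian field at `q = (x, ξ)`: `(XH q).1 = h(x) ξ`, `⟪(XH q).2, w⟫ = -½ ⟪Dh(x) w ξ, ξ⟫`; `h` and `Dh(x) w` are symmetric, `D²h(x)` is symmetric in its two arguments. -/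
def AWXH_stmt : Prop := ∀ (d : ℕ) (G : V d → V d →L[ℝ] V d), IsMetric G → ∀ q : P d,
  (∀ i j, WA (fderiv ℝ (XH G) q) i j = (((fderiv ℝ (IG G) q.1 (EuclideanSpace.single j 1) q.2) i : ℝ) : ℂ)) ∧ (∀ i j, WB (fderiv ℝ (XH G) q) i j = (((IG G q.1 (EuclideanSpace.single j 1)) i : ℝ) : ℂ)) ∧
  (∀ i j, WC (fderiv ℝ (XH G) q) i j = ((-(1 / 2) * ⟪fderiv ℝ (fderiv ℝ (IG G)) q.1 (EuclideanSpace.single i 1) (EuclideanSpace.single j 1) q.2, q.2⟫_ℝ : ℝ) : ℂ)) ∧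
  WD (fderiv ℝ (XH G) q) = -(WA (fderiv ℝ (XH G) q)).transpose ∧ (WB (fderiv ℝ (XH G) q)).transpose = WB (fderiv ℝ (XH G) q) ∧ (WC (fderiv ℝ (XH G) q)).transpose = WC (fderiv ℝ (XH G) q)

/-- **Row AWYT** (medium; from GXH, GUN). `fderiv (Φ t) p` is jointly smooth (`ContDiff.fderiv`, `IsFlow.smooth`), the variational equation is `CRO.IsC1Flow` (GUN; field `var`), applied to the basis vectors; `Yf`, `Pf` are linear in the derivative: `Yf f p Y0 P0 = WA (fderiv f p) * Y0 + WB (fderiv f p) * P0` (`rfl`), and the blocks of a composition `S ∘ T` are the block products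
(`WA (S ∘ T) = WA S * WA T + WB S * WC T`, ..). `Φ 0 = id`. -/
def AWYT_stmt : Prop := ∀ (d : ℕ) (G : V d → V d →L[ℝ] V d) (Φ : ℝ → P d → P d), IsMetric G → IsFlow G Φ → ∀ Y0 P0 : MC d,
  (∀ i j, ContDiff ℝ ∞ (fun x : P d × ℝ => Yf (Φ x.2) x.1 Y0 P0 i j) ∧ ContDiff ℝ ∞ (fun x : P d × ℝ => Pf (Φ x.2) x.1 Y0 P0 i j)) ∧
  (∀ (p : P d) (t : ℝ) (i j : Fin d), HasDerivAt (fun s => Yf (Φ s) p Y0 P0 i j) (Yf (XH G) (Φ t p) (Yf (Φ t) p Y0 P0) (Pf (Φ t) p Y0 P0) i j) t ∧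
    HasDerivAt (fun s => Pf (Φ s) p Y0 P0 i j) (Pf (XH G) (Φ t p) (Yf (Φ t) p Y0 P0) (Pf (Φ t) p Y0 P0) i j) t) ∧
  ∀ p : P d, Yf (Φ 0) p Y0 P0 = Y0 ∧ Pf (Φ 0) p Y0 P0 = P0

/-- **Row AWMT** (medium; from AWYT, AWLN, AWDT, AWAM, AWXH, GSY). `Lag` for `(Y, P)(t)` (GSY, AWLN), so `det Y ≠ 0`, `M = Mᵀ` (AWDT; take `L ≥ 1`). `M = P Y⁻¹` is smooth (`Y⁻¹ = (det Y)⁻¹ adjugate Y`). `M' = P' Y⁻¹ - P Y⁻¹ Y' Y⁻¹ = (C Y + D P) Y⁻¹ - M (A Y + B P) Y⁻¹`. The amplitude: AWAM; `tr (Y' Y⁻¹) = tr A + tr (B M) = Wdv G (Φ t p) M 0`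
(AWXH, `M = Mᵀ`; `Wcx 0 = 0`). Continuity of `amp` in `(p, t)`: the integrand is continuous in `(p, r)` (`intervalIntegral.continuous_parametric_intervalIntegral_of_continuous`). -/
def AWMT_stmt : Prop := ∀ (d : ℕ) (G : V d → V d →L[ℝ] V d) (Φ : ℝ → P d → P d), IsMetric G → IsFlow G Φ → ∀ (L : ℝ) (Y0 P0 : MC d), Lag L Y0 P0 →
  (∀ (p : P d) (t : ℝ), (Yf (Φ t) p Y0 P0).det ≠ 0 ∧ (Mt Φ p Y0 P0 t).transpose = Mt Φ p Y0 P0 t ∧ amp Φ p Y0 P0 t ^ 2 * (Yf (Φ t) p Y0 P0).det = Y0.det ∧ amp Φ p Y0 P0 0 = 1) ∧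
  (∀ i j, ContDiff ℝ ∞ (fun x : P d × ℝ => Mt Φ x.1 Y0 P0 x.2 i j)) ∧ Continuous (fun x : P d × ℝ => amp Φ x.1 Y0 P0 x.2) ∧
  (∀ (p : P d) (t : ℝ) (i j : Fin d), HasDerivAt (fun s => Mt Φ p Y0 P0 s i j)
    ((WC (fderiv ℝ (XH G) (Φ t p)) + WD (fderiv ℝ (XH G) (Φ t p)) * Mt Φ p Y0 P0 t - Mt Φ p Y0 P0 t * WA (fderiv ℝ (XH G) (Φ t p)) - Mt Φ p Y0 P0 t * WB (fderiv ℝ (XH G) (Φ t p)) * Mt Φ p Y0 P0 t) i j) t) ∧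
  ∀ (p : P d) (t : ℝ), HasDerivAt (fun s => amp Φ p Y0 P0 s) (-(1 / 2) * Wdv G (Φ t p) (Mt Φ p Y0 P0 t) 0 * amp Φ p Y0 P0 t) t

/-- **Row ABMA** (FINAL; short-medium; from AWMT, AWLN, AWDT, GSY, ACNF). `‖fderiv (Φ t) p‖ ≤ C` (ACNF with `Ham ≤ 2`, `t0 = 1`), AWLN, AWDT for `C L`; `‖amp‖² = ‖det Y0‖/‖det Y‖ ≤ C L^(2d)`, so `‖amp‖ ≤ C L^C` with `C ≥ d`. -/
def ABMA_row : Prop := ABMA_stmt

/-! ## 3. The equation -/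

/-- **Row AWR3** (PURE algebra; medium; from GIN, GXH, AWXH). THE EIKONAL EQUATION UP TO THIRD ORDER. Write `½ h(x+v)(g, g) = ½ h(x+v)(ξ, ξ) + h(x+v)(ξ, M v) + ½ h(x+v)(M v, M v)` (`h` symmetric). Order 0: `½ h(x)(ξ, ξ) = Ham q`, `⟪ξ, x'⟫ = 2 Ham q`. Order 1: `⟪ξ', v⟫ = -½ ⟪Dh(x) v ξ, ξ⟫` cancels `½ (Dh(x) v)(ξ, ξ)`; `h(x)(ξ, M v) = ∑ x'_i (M v)_i`.
Order 2: `½ qf(C) v = -¼ (D²h(x) v v)(ξ, ξ)`, `½ qf(D M) v = ½ qf(-M A) v = -½ (Dh(x) v)(ξ, M v)` (`D = -Aᵀ`, `A v = Dh(x) v ξ`), `-½ qf(M B M) v = -½ h(x)(M v, M v)` (`M = Mᵀ`). What remains is `Wr3`. -/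
def AWR3_stmt : Prop := ∀ (d : ℕ) (G : V d → V d →L[ℝ] V d), IsMetric G → ∀ (q : P d) (M : MC d) (v : V d), M.transpose = M →
  ((Ham G q + 1 / 2 : ℝ) : ℂ) - ((⟪q.2, (XH G q).1⟫_ℝ : ℝ) : ℂ) + ((⟪(XH G q).2, v⟫_ℝ : ℝ) : ℂ) +
    qf (WC (fderiv ℝ (XH G) q) + WD (fderiv ℝ (XH G) q) * M - M * WA (fderiv ℝ (XH G) q) - M * WB (fderiv ℝ (XH G) q) * M) v / 2 -
    (∑ i, (M.mulVec (Wcx v)) i * ((((XH G q).1 i : ℝ)) : ℂ)) +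
    WhE (IG G (q.1 + v)) (Wcx q.2 + M.mulVec (Wcx v)) (Wcx q.2 + M.mulVec (Wcx v)) / 2 - 1 / 2 = Wr3 G q M v

/-- **Row AWEQ** (THE BEAM EQUATION; medium-long; from AWMT, AWR3, AHLD, GUN, GXH, GIN; model helper34/VQ/VRM.lean). `u = dens^(1/2) bt`. `i u_t`: `i a'/a = -(i/2) Wdv 0`; `-R θ_t`, `θ_t = (Ham G p + 1/2) + ⟪ξ', v⟫ - ⟪ξ, x'⟫ + ½ qf M' v - ∑ (M v)_i x'_i` (`Ham G (Φ t p) = Ham G p`, `M' =` AWMT), and `-i ∇X·x'`. By AHLD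
`-Hop bt = dens^(-1/2) ((2R)⁻¹ ∂_i(h^(ij) ∂_j u) - (2R)⁻¹ VG u + (R/2) u)`; with `∂_j (e^(iRθ)) = i R g_j e^(iRθ)`, `g = ξ + M v`: `(2R)⁻¹ ∂_i(h^(ij) ∂_j (X e^(iRθ))) = e^(iRθ) (X ((i/2) Wdv v - (R/2) h(g, g)) + i h^(ij) g_i ∂_j X + (2R)⁻¹ ∂_i(h^(ij) ∂_j X))`. Add: AWR3. -/
def AWEQ_stmt : Prop := ∀ (d : ℕ) (Γ : Type) [Group Γ] [MulAction Γ (V d)] (K : Set (V d)) (k : ℝ) (B : ℕ → ℕ → ℝ) (G : V d → V d →L[ℝ] V d) (Φ : ℝ → P d → P d) (L : ℝ) (Y0 P0 : MC d) (ch : ℝ → ℝ) (ζ1 R : ℝ), OKA Γ K k B G Φ → Lag L Y0 P0 → CH ch → 0 < ζ1 → ζ1 ≤ 1 / 8 → 1 ≤ R →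
  ∀ (p : P d) (t : ℝ) (v : V d), DifferentiableAt ℝ (fun s => bt G Φ ch ζ1 R Y0 P0 p s ((Φ t p).1 + v)) t ∧
    bt G Φ ch ζ1 R Y0 P0 p t ((Φ t p).1 + v) = Wpf G Φ R Y0 P0 p t v * (WX ch ζ1 R v * WE R (Mt Φ p Y0 P0 t) v) ∧
    Eb G Φ ch ζ1 R Y0 P0 p t ((Φ t p).1 + v) = Wpf G Φ R Y0 P0 p t v * WE R (Mt Φ p Y0 P0 t) v *
      (WX ch ζ1 R v * Wmn G R (Φ t p) (Mt Φ p Y0 P0 t) v + Wct G ch ζ1 R (Φ t p) (Mt Φ p Y0 P0 t) v)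

/-! ## 4. Bounds -/

/-- **Row AWRB** (medium; from AHLD; model helper73/VQ/VR3.lean). `C` depends on the number `Kd` of derivatives. `Wr3`, `Wdv` are polynomials of degree `≤ 2` in `M` and `v` with coefficients the smooth functions `h(x+v)`, `Dh(x+v)` (bounded with all derivatives on the ball of radius `r + 2`: AHLD), so all derivatives are `≤ C m²` resp. `≤ C m` for `‖v‖ ≤ 1` (`norm_iteratedFDeriv_mul_le`).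
The derivatives of order `0, 1, 2` of `Wr3` at `0` vanish: product of a function which vanishes to order `3, 2, 1` (Taylor remainders of `h`) and a polynomial in `v` which vanishes to order `0, 1, 2`. (For instance: `‖Wr3 v‖ ≤ C ‖v‖³` near `0` implies `D^k Wr3 (0) = 0`, `k ≤ 2`; or direct.) Then the mean value inequality on the segment `[0, v]`, three times. -/
def AWRB_stmt : Prop := ∀ (d : ℕ) (Γ : Type) [Group Γ] [MulAction Γ (V d)] (K : Set (V d)) (k : ℝ) (B : ℕ → ℕ → ℝ) (r : ℝ) (Kd : ℕ), FdK Γ K → ∃ C : ℝ, 1 ≤ C ∧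
  ∀ (G : V d → V d →L[ℝ] V d) (q : P d) (M : MC d) (m : ℝ) (v : V d), Cls Γ K k B G → ‖q.1‖ ≤ r → ‖q.2‖ ≤ r → 1 ≤ m → (∀ i j, ‖M i j‖ ≤ m) → ‖v‖ ≤ 1 →
    ContDiffAt ℝ ∞ (Wr3 G q M) v ∧ ContDiffAt ℝ ∞ (Wdv G q M) v ∧ (∀ j ≤ 3, ‖iteratedFDeriv ℝ j (Wr3 G q M) v‖ ≤ C * m ^ 2 * ‖v‖ ^ (3 - j)) ∧ (∀ j ≤ Kd, ‖iteratedFDeriv ℝ j (Wr3 G q M) v‖ ≤ C * m ^ 2) ∧
    ‖Wdv G q M v - Wdv G q M 0‖ ≤ C * m * ‖v‖ ∧ ∀ j ≤ Kd, ‖iteratedFDeriv ℝ j (Wdv G q M) v‖ ≤ C * m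

/-- **Row AWE1** (short-medium; from AWRB, AHLD, AWSY). THE MAIN ERROR TERM IS A SYMBOL OF SIZE `R^(-1/2+3ζ1)`. `‖D^j (R r3)‖ ≤ R C m² ‖v‖^(3-j) ≤ C m² R^(-1/2+3ζ1) (R^(1/2))^j` for `j ≤ 3` and `≤ R C m² ≤ C m² R^(-1/2) (R^(1/2))^j` for `j ≥ 3`; `Wdv v - Wdv 0`: `≤ C m ‖v‖ ≤ C m R^(-1/2+ζ1)`, derivatives `≤ C m ≤ C m R^(-1/2) (R^(1/2))^j`; `VG/(2R) ≤ C R⁻¹`. (`‖v‖ ≤ 1`.) -/
def AWE1_stmt : Prop := ∀ (d : ℕ) (Γ : Type) [Group Γ] [MulAction Γ (V d)] (K : Set (V d)) (k : ℝ) (B : ℕ → ℕ → ℝ) (r : ℝ) (Kd : ℕ), FdK Γ K → ∃ C : ℝ, 1 ≤ C ∧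
  ∀ (G : V d → V d →L[ℝ] V d) (q : P d) (M : MC d) (m R ζ1 : ℝ) (v : V d), Cls Γ K k B G → ‖q.1‖ ≤ r → ‖q.2‖ ≤ r → 1 ≤ m → (∀ i j, ‖M i j‖ ≤ m) → 1 ≤ R → 0 ≤ ζ1 → ζ1 ≤ 1 / 8 → ‖v‖ ≤ R ^ (-(1 / 2) + ζ1) →
    WS Kd (R ^ (1 / 2 : ℝ)) (C * m ^ 2 * R ^ (-(1 / 2) + 3 * ζ1)) (Wmn G R q M) v

/-- **Row AWE2** (short-medium; from AWCT, AWSY, AHLD). THE CUT-OFF TERMS. `D^j` of the first and second derivatives of `WX` are `≤ C R (R^(1/2))^j`, the other factors are `h(x+v)`, `Dh(x+v)`, `ξ`, `M v`, `vel G q` (bounded with all derivatives by `C m`). Near a point with `‖v‖ < R^(-1/2+ζ1)/2` or `‖v‖ > R^(-1/2+ζ1)` the function `WX` is constant. -/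
def AWE2_stmt : Prop := ∀ (d : ℕ) (Γ : Type) [Group Γ] [MulAction Γ (V d)] (K : Set (V d)) (k : ℝ) (B : ℕ → ℕ → ℝ) (r : ℝ) (ch : ℝ → ℝ) (Kd : ℕ), FdK Γ K → CH ch → ∃ C : ℝ, 1 ≤ C ∧
  ∀ (G : V d → V d →L[ℝ] V d) (q : P d) (M : MC d) (m R ζ1 : ℝ), Cls Γ K k B G → ‖q.1‖ ≤ r → ‖q.2‖ ≤ r → 1 ≤ m → (∀ i j, ‖M i j‖ ≤ m) → 1 ≤ R → 0 ≤ ζ1 → ζ1 ≤ 1 / 8 →
    ContDiff ℝ ∞ (Wct G ch ζ1 R q M) ∧ (∀ v : V d, ‖v‖ ≤ 1 → WS Kd (R ^ (1 / 2 : ℝ)) (C * m * R) (Wct G ch ζ1 R q M) v) ∧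
    (∀ v : V d, ‖v‖ < R ^ (-(1 / 2) + ζ1) / 2 → Wct G ch ζ1 R q M =ᶠ[𝓝 v] fun _ => 0) ∧ ∀ v : V d, R ^ (-(1 / 2) + ζ1) < ‖v‖ → Wct G ch ζ1 R q M =ᶠ[𝓝 v] fun _ => 0

/-- **Row AWP1** (medium; from ABMA, AWEQ, AWCT, AWQF, AWSY, AWPK, AHLD, ACNF, ABRD). Beams, flat packets, sup norm. `A v = a e^(iRS) dens(x+v)^(-1/2) X(v) E(v)`: for `‖v‖ ≤ R^(-1/2+ζ1)`: AWQF with `m = C R^(2e)` (ABMA, `L = R^e`), `exp (-(R/2) im qf) ≤ 1`; AWCT; `dens^(-1/2)` (AHLD, radius of ACNF plus one); `‖a‖ ≤ C R^(C e) ≤ C R^ζ1`;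
all constants are absorbed by `R^ζ1` (`R ≥ R0`). `pkt`: `b0 = WX ch ζ R * WE R (i 1)` (`qf (i 1) v = i ‖v‖²`), `c_R ≤ R^(3d/4)` (ABRD). The smoothness of `A` is global (`dens > 0` is smooth: AHLD or AMVI). -/
def AWP1_stmt : Prop := ∀ (d : ℕ) (Γ : Type) [Group Γ] [MulAction Γ (V d)] (K : Set (V d)) (k : ℝ) (B : ℕ → ℕ → ℝ) (r : ℝ), FdK Γ K → ∃ C : ℝ, 1 ≤ C ∧ ∀ (ch : ℝ → ℝ) (Kd : ℕ) (e ζ ζ1 : ℝ), CH ch → Rg C e ζ ζ1 → ∃ R0 : ℝ, 1 ≤ R0 ∧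
  ∀ (R t : ℝ) (G : V d → V d →L[ℝ] V d) (Φ : ℝ → P d → P d) (p : P d) (Y0 P0 : MC d), R0 ≤ R → OKA Γ K k B G Φ → ‖p.1‖ ≤ r → |Ep G p| ≤ 1 / 4 → |t| ≤ 1 → Lag (R ^ e) Y0 P0 →
    Pk Kd (C * ζ1) (R ^ (C * ζ1)) R (Φ t p) (bt G Φ ch ζ1 R Y0 P0 p t) ∧ Pk Kd (C * ζ1) (R ^ (3 * (d : ℝ) / 4 + C * ζ1)) R p (pkt G ch ζ R p) ∧ ∀ w, ‖bt G Φ ch ζ1 R Y0 P0 p t w‖ ≤ C * ‖amp Φ p Y0 P0 t‖

/-- **Row AWP2** (medium; from ABMA, AWEQ, AWE1, AWE2, AWCT, AWQF, AWSY, AWPK, AWPX, AHLD, ACNF). THE ERROR OF THE BEAM. Prefactor and `E` as in AWP1; `X * Wmn`: AWCT, AWE1. `Wct`: it vanishes near `v` for `‖v‖ < R^(-1/2+ζ1)/2`; for the other `v` the factor `exp (-(R/2) im qf M v) ≤ exp (-R ‖v‖²/(C R^(2e)))` of AWQF (ABMA) is smaller than every power of `R` (AWPX), so `E * Wct` is a symbol of size `R^(-1/2)`. -/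
def AWP2_stmt : Prop := ∀ (d : ℕ) (Γ : Type) [Group Γ] [MulAction Γ (V d)] (K : Set (V d)) (k : ℝ) (B : ℕ → ℕ → ℝ) (r : ℝ), FdK Γ K → ∃ C : ℝ, 1 ≤ C ∧ ∀ (ch : ℝ → ℝ) (Kd : ℕ) (e ζ ζ1 : ℝ), CH ch → Rg C e ζ ζ1 → ∃ R0 : ℝ, 1 ≤ R0 ∧
  ∀ (R t : ℝ) (G : V d → V d →L[ℝ] V d) (Φ : ℝ → P d → P d) (p : P d) (Y0 P0 : MC d), R0 ≤ R → OKA Γ K k B G Φ → ‖p.1‖ ≤ r → |Ep G p| ≤ 1 / 4 → |t| ≤ 1 → Lag (R ^ e) Y0 P0 →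
    Pk Kd (C * ζ1) (R ^ (-(1 / 2) + C * ζ1)) R (Φ t p) (Eb G Φ ch ζ1 R Y0 P0 p t)

/-- **Row AWP3** (medium; from ABMA, AWEQ, AWYT, AWMT, AWCT, AWQF, AWSY, AWPK, AWPX, AHLD, ACNF, ABRD). THE CUT-OFF DOES NOT MATTER. Both differences are `prefactor * (WX ζ' - WX ζ'') * E` with `ζ'' ≤ ζ'`: they vanish near `v` for `‖v‖ < R^(-1/2+ζ'')/2`, are supported in `‖v‖ ≤ R^(-1/2+ζ')`, and `E` is exponentially small on the rest (AWQF, AWPX). First: `Φ 0 = id`, `Mt = i 1` at `t = 0` (AWYT), `amp = 1`, `e = 0`, `L = 1`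
(`Lag 1 1 i`), `c_R ≤ R^(3d/4)`. -/
def AWP3_stmt : Prop := ∀ (d : ℕ) (Γ : Type) [Group Γ] [MulAction Γ (V d)] (K : Set (V d)) (k : ℝ) (B : ℕ → ℕ → ℝ) (r : ℝ), FdK Γ K → ∃ C : ℝ, 1 ≤ C ∧ ∀ (ch : ℝ → ℝ) (Kd : ℕ) (e ζ ζ1 ζ2 M : ℝ), CH ch → Rg C e ζ ζ1 → ζ1 ≤ ζ2 → C * ζ2 ≤ 1 → ∃ R0 : ℝ, 1 ≤ R0 ∧
  ∀ (R t : ℝ) (G : V d → V d →L[ℝ] V d) (Φ : ℝ → P d → P d) (p : P d) (Y0 P0 : MC d), R0 ≤ R → OKA Γ K k B G Φ → ‖p.1‖ ≤ r → |Ep G p| ≤ 1 / 4 → |t| ≤ 1 → Lag (R ^ e) Y0 P0 →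
    Pk Kd (C * ζ2) (R ^ (-M)) R p (fun w => (cR d ch ζ R : ℂ) * bt G Φ ch ζ2 R 1 (Complex.I • 1) p 0 w - pkt G ch ζ R p w) ∧
    Pk Kd (C * ζ2) (R ^ (-M)) R (Φ t p) (fun w => bt G Φ ch ζ2 R Y0 P0 p t w - bt G Φ ch ζ1 R Y0 P0 p t w)

/-- **Row ABMP** (FINAL; short; from AWP1, AWP2, AWP3, AWPK). The maximum of the three constants `C` (monotonicity of `Pk`: AWPK; `Rg C` implies `Rg C'` for `C' ≤ C`) and of the three `R0`. -/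
def ABMP_row : Prop := ABMP_stmt

/-! ## 5. Regularity -/

/-- **Row AWRG** (short-medium; from AWMT, GXH, AMVI). Without the amplitude the beam is jointly smooth: composition of `Ham`, `Φ`, `Mt` (AWMT), `ch`, `‖·‖²`, `dens > 0` (smooth), `sqrt`, `exp`. -/
def AWRG_stmt : Prop := ∀ (d : ℕ) (Γ : Type) [Group Γ] [MulAction Γ (V d)] (K : Set (V d)) (k : ℝ) (B : ℕ → ℕ → ℝ) (G : V d → V d →L[ℝ] V d) (Φ : ℝ → P d → P d) (L : ℝ) (Y0 P0 : MC d) (ch : ℝ → ℝ) (ζ1 R : ℝ), OKA Γ K k B G Φ → Lag L Y0 P0 → CH ch →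
  ContDiff ℝ ∞ fun x : (P d × ℝ) × V d => Complex.exp (((R * ((Ham G x.1.1 + 1 / 2) * x.1.2) : ℝ) : ℂ) * Complex.I) * bm G ch ζ1 R (Mt Φ x.1.1 Y0 P0 x.1.2) (Φ x.1.2 x.1.1) x.2

/-- **Row ABMR** (FINAL; medium; from AWRG, AWMT, AWCT, AHLD, AMVI; model `VPR_proof`). `bt = amp(p, t) F(p, t, w)`, `F` jointly smooth (AWRG), `amp` continuous in `(p, t)` and differentiable in `t` with a continuous derivative (AWMT; `Wdv G (Φ t p) M 0` is continuous). The partial derivatives in `w` of a jointly smooth function are jointly smooth (`ContDiff.fderiv`), so all the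
functions in the statement are products of `amp` (or `amp'`) and continuous functions (`lap` is a combination of first and second derivatives with smooth coefficients; `lap` and `Hop` are linear, the factor `amp` comes out). Support: `bt` vanishes in a neighbourhood (in `t` and `w`) of a point with `‖w - x_t‖ > R^(-1/2+ζ1)` (`ch = 0` for `s ≥ 1`), so `Eb` vanishes there;
the last statement is the definition of `Eb` (differentiability in `t`). -/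
def ABMR_row : Prop := ABMR_stmt

/-! ## 6. Change of the chart -/

/-- **Row AWKY** (medium; from ALFX, AWLN, ASGF, GLF). THE LINEAR DATA IN THE NEW CHART. `T = fderiv (lft κ) q` is symplectic (ALFX) and bounded (ASGF, for a larger radius: `‖κ q.1‖ ≤ r + 2 r C`): AWLN. `(lft κ (x, ξ)).1 = κ x`, so `WB T = 0`, `WA T` is the matrix of `Dκ(x)`: `Y' = Dκ(x) Y0`, determinant. `(lft κ (x, ξ)).2 = (Dκ⁻¹(κx))* ξ`: `WD T` is the transpose of the matrix `N` of `Dκ⁻¹(κ x)`,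
and `⟪WC T e_i, e_j⟫ = ⟪ξ, D²κ⁻¹(κx)(Dκ(x) e_i, e_j)⟫`. So `P' Y'⁻¹ = (C Y0 + Nᵀ P0) Y0⁻¹ N = C N + Nᵀ M N`, and `qf` of it at `v` is as stated (`qf (Nᵀ M N) v = qf M (N v)`). (`Y0` is invertible by AWDT.) -/
def AWKY_stmt : Prop := ∀ (d : ℕ) (Γ : Type) [Group Γ] [MulAction Γ (V d)] (K : Set (V d)) (k : ℝ) (B : ℕ → ℕ → ℝ) (r : ℝ), FdK Γ K → ∃ C : ℝ, 1 ≤ C ∧ ∀ (G : V d → V d →L[ℝ] V d) (κ : Γ) (q : P d) (L : ℝ) (Y0 P0 : MC d), Cls Γ K k B G → κ ∈ SG Γ d r → ‖q.1‖ ≤ r - 1 → ‖q.2‖ ≤ r → 1 ≤ L → Lag L Y0 P0 →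
  Lag (C * L) (Yf (lft κ) q Y0 P0) (Pf (lft κ) q Y0 P0) ∧ (Yf (lft κ) q Y0 P0).det = ((fderiv ℝ (fun y : V d => κ • y) q.1).det : ℂ) * Y0.det ∧ ‖(lft κ q : P d)‖ ≤ C ∧
  (∀ v : V d, ⟪(lft κ q).2, v⟫_ℝ = ⟪q.2, Wl1 κ q.1 v⟫_ℝ) ∧
  ∀ v : V d, qf (Pf (lft κ) q Y0 P0 * (Yf (lft κ) q Y0 P0)⁻¹) v = qf (P0 * Y0⁻¹) (Wl1 κ q.1 v) + ((⟪q.2, Wl2 κ q.1 v v⟫_ℝ : ℝ) : ℂ)

/-- **Row AWKP** (medium; from ASGF; model AWRB). THE TRANSITION MAP AND THE PHASE. `Wl κ x` is smooth, `Wl 0 = 0`, with the derivatives `Wl1`, `Wl2` at `0`; all derivatives are bounded for `‖v‖ ≤ 1` (ASGF for the radius `r + 2 r C + 2` and `κ⁻¹`), so `‖Wl v‖ ≤ C ‖v‖` and (the inverse map is of the same kind) `‖v‖ ≤ C ‖Wl v‖`.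
`Wrk` is the Taylor remainder of order 2 at `0` of the smooth function `φ v = ⟪ξ, Wl v⟫ + ½ qf M (Wl v)` (second derivative `⟪ξ, Wl2 v v⟫ + qf M (Wl1 v)`, `M` symmetric), so its derivatives of order `≤ 2` vanish at `0`; mean value inequality three times. -/
def AWKP_stmt : Prop := ∀ (d : ℕ) (Γ : Type) [Group Γ] [MulAction Γ (V d)] (K : Set (V d)) (r : ℝ) (Kd : ℕ), FdK Γ K → ∃ C : ℝ, 1 ≤ C ∧ ∀ (κ : Γ) (q : P d) (M : MC d) (m : ℝ), κ ∈ SG Γ d r → ‖q.1‖ ≤ r - 1 → ‖q.2‖ ≤ r → 1 ≤ m → (∀ i j, ‖M i j‖ ≤ m) → M.transpose = M →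
  ContDiff ℝ ∞ (Wl κ q.1) ∧ ContDiff ℝ ∞ (Wrk κ q M) ∧ ∀ v : V d, ‖v‖ ≤ 1 → ‖Wl κ q.1 v‖ ≤ C * ‖v‖ ∧ ‖v‖ ≤ C * ‖Wl κ q.1 v‖ ∧ (∀ j, 1 ≤ j → j ≤ Kd → ‖iteratedFDeriv ℝ j (Wl κ q.1) v‖ ≤ C) ∧
    (∀ j ≤ 3, ‖iteratedFDeriv ℝ j (Wrk κ q M) v‖ ≤ C * m * ‖v‖ ^ (3 - j)) ∧ ∀ j ≤ Kd, ‖iteratedFDeriv ℝ j (Wrk κ q M) v‖ ≤ C * m

/-- **Row AWKA** (short-medium; from AMVI, ASGF). THE AMPLITUDE. `dens (κ y) |det Dκ(y)| = dens y` for `y = κ⁻¹ (κ x + v)`, so `dens(y)^(-1/2) = dens(κ x + v)^(-1/2) Wj v`. `det Dκ` is smooth, never zero, of constant sign (connectedness; or: `|det|` is smooth where `det ≠ 0`), bounded below and above with all derivatives on balls (ASGF; `‖u‖ ≤ C ‖Dκ u‖` bounds it below). -/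
def AWKA_stmt : Prop := ∀ (d : ℕ) (Γ : Type) [Group Γ] [MulAction Γ (V d)] (K : Set (V d)) (k : ℝ) (B : ℕ → ℕ → ℝ) (r : ℝ) (Kd : ℕ), FdK Γ K → ∃ C : ℝ, 1 ≤ C ∧ ∀ (G : V d → V d →L[ℝ] V d) (κ : Γ) (x : V d), Cls Γ K k B G → κ ∈ SG Γ d r → ‖x‖ ≤ r - 1 →
  (∀ v : V d, (Real.sqrt (dens G (κ⁻¹ • (κ • x + v))))⁻¹ = (Real.sqrt (dens G (κ • x + v)))⁻¹ * Wj κ x v) ∧ Wj κ x 0 = (Real.sqrt |(fderiv ℝ (fun y : V d => κ • y) x).det|)⁻¹ ∧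
  ContDiff ℝ ∞ (fun v : V d => ((Wj κ x v : ℝ) : ℂ)) ∧ ∀ v : V d, ‖v‖ ≤ 1 → |Wj κ x v - Wj κ x 0| ≤ C * ‖v‖ ∧ ∀ j ≤ Kd, ‖iteratedFDeriv ℝ j (fun v : V d => ((Wj κ x v : ℝ) : ℂ)) v‖ ≤ C

/-- **Row AWCL** (short-medium; from AWCT, AWKP). THE CUT-OFF IN THE NEW CHART: `WX ∘ Wl`. Faa di Bruno (`norm_iteratedFDeriv_comp_le` with `‖D^i Wl‖ ≤ C ≤ C^i`): `≤ Kd! C (R^(1/2))^i C^j ≤ C' (R^(1/2))^j`. `‖v‖/C ≤ ‖Wl v‖ ≤ C ‖v‖` and AWCT. The last part: for `‖v‖ > 1` nothing is claimed, but `WX (Wl v) ≠ 0` implies that `v` is small: `v = Wl κ⁻¹ (κ x) (Wl κ x v)`, with `‖Wl v‖ ≤ 1`. -/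
def AWCL_stmt : Prop := ∀ (d : ℕ) (Γ : Type) [Group Γ] [MulAction Γ (V d)] (K : Set (V d)) (r : ℝ) (ch : ℝ → ℝ) (Kd : ℕ), FdK Γ K → CH ch → ∃ C : ℝ, 1 ≤ C ∧ ∀ (κ : Γ) (x : V d) (ζ1 R : ℝ), κ ∈ SG Γ d r → ‖x‖ ≤ r - 1 → 0 ≤ ζ1 → ζ1 ≤ 1 / 8 → C ≤ R →
  ContDiff ℝ ∞ (fun v : V d => WX ch ζ1 R (Wl κ x v)) ∧ (∀ v : V d, ‖v‖ ≤ 1 → ∀ j ≤ Kd, ‖iteratedFDeriv ℝ j (fun v : V d => WX ch ζ1 R (Wl κ x v)) v‖ ≤ C * (R ^ (1 / 2 : ℝ)) ^ j) ∧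
  (∀ v : V d, ‖v‖ < R ^ (-(1 / 2) + ζ1) / C → (fun v : V d => WX ch ζ1 R (Wl κ x v)) =ᶠ[𝓝 v] fun _ => 1) ∧ ∀ v : V d, C * R ^ (-(1 / 2) + ζ1) < ‖v‖ → (fun v : V d => WX ch ζ1 R (Wl κ x v)) =ᶠ[𝓝 v] fun _ => 0

/-- **Row ABMC** (FINAL; medium-long; from AWKY, AWKP, AWKA, AWCL, AWCT, AWQF, AWSY, AWPK, AWPX, AWDT, AHLD). `x' = κ x`, `w = x' + v`, `κ⁻¹ w - x = Wl v`, `M = P0 Y0⁻¹`, `M'` = the new matrix (AWKY, AWDT for both: `‖M_ij‖ ≤ C R^(2e)`, `im qf M' v ≥ ‖v‖²/(C R^(2e))`, symmetric). The difference is `e^(iR ξ'·v) dens(w)^(-1/2) E'(v) D(v)`, `E' = WE R M'`,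
`D(v) = WX(Wl v) (Wj v e^(iR Wrk v) - Wj 0) + Wj 0 (WX(Wl v) - WX v)`. On `‖v‖ ≤ C R^(-1/2+ζ1)`: `R Wrk` is a symbol of size `ε = C R^(-1/2+3ζ1+2e)` with `N = R^(1/2)` (as in AWE1), so is `e^(iR Wrk) - 1` (AWSY, third part), `Wj v - Wj 0` is of size `C R^(-1/2+ζ1)`: the first term is a symbol of size `R^(-1/2+C ζ1)`. The second term vanishes near `v` for
`‖v‖ < R^(-1/2+ζ1)/C`, elsewhere `E'` is exponentially small (AWPX with `C0 ≥ C`). AWPK with the support radius `C R^(-1/2+ζ1) ≤ R^(-1/2+2ζ1)`. -/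
def ABMC_row : Prop := ABMC_stmt

end

end Pool.Agent.VD
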